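import Pool.Agent.W550.Murre.Local

/-!
# The global statements and the main theorem
-/

open CategoryTheory AlgebraicGeometry

universe u v w

namespace Pool.Agent.W550.Murre

open Pool.Agent.H914 Pool.Agent.H914.VarClass Pool.Agent.H914.VarClass.Obj Pool.Agent.W492.BB
  Pool.Agent.W550.Corr

variable {k : Type u} [Field k] {𝒱 : VarClass k} {C : TheoryData.{u, v, 0} 𝒱 ℚ} {K : Type w}
  [Field K] (H : WeilTheoryData.{u, v, w} C K)

/-- `X` has a Chow-Kunneth decomposition. -/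
def HasCK (X : 𝒱.Obj) : Prop := ∃ π : ℕ → C.A (X.prod X), IsCK H X π

/-- `F^0 CH^i(X) = CH^i(X)` for every Chow-Kunneth decomposition of `X`. -/
def Vanishing (X : 𝒱.Obj) : Prop :=
  ∀ π : ℕ → C.A (X.prod X), IsCK H X π → ∀ i : ℕ, ckF π i 0 = C.gr X i

/-- Triangularity of all correspondences with respect to all Chow-Kunneth decompositions: a
correspondence `Γ` of degree `e` from `X` to `Y` has no component from `(X, π b)` to `(Y, π' a)` if
`a > b + 2e`. -/
def TriangularAll : Prop := ∀ (X Y : 𝒱.Obj) (π : ℕ → C.A (X.prod X)) (π' : ℕ → C.A (Y.prod Y)),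
  IsCK H X π → IsCK H Y π' → ∀ (e : ℤ) (Γ : C.A (X.prod Y)), C.Deg (X.dim + e) Γ →
    ∀ a b : ℕ, (b : ℤ) + 2 * e < a → C.comp (C.comp (π b) Γ) (π' a) = 0

/-- All correspondences respect the filtrations induced by all Chow-Kunneth decompositions. -/
def FunctorialAll : Prop := ∀ (X Y : 𝒱.Obj) (π : ℕ → C.A (X.prod X)) (π' : ℕ → C.A (Y.prod Y)),
  IsCK H X π → IsCK H Y π' → ∀ (i i' : ℕ) (Γ : C.A (X.prod Y)), C.Deg (X.dim + (i' - i)) Γ →
    ∀ (n : ℤ) (x : C.A X), x ∈ ckF π i n → C.act Γ x ∈ ckF π' i' n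

variable {H} [hC : IsChow C] [hH : IsWeil H]

theorem independent_of_truncInd [HasIso C] {X : 𝒱.Obj} (h : TruncInd H X) : Independent H X :=
  independent_of_orth h

theorem truncInd_of_square (hS : IsStandard H) {X : 𝒱.Obj} (h : Independent H (X.prod X)) :
    TruncInd H X := by
  have hI : HasIso C := hasIso_of_std H hS
  intro π π' hπ hπ' a b hba
  have h1 := triangular_of_vanishing (X := X) (Y := X) (fun ρ hρ i => by
    rw [ckF_zero_iff hρ]
    exact fun j hj x hx => F_zero_of_independent h hρ hj hx) hπ hπ' (e := 0) (Γ := dg C X)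
    (by rw [add_zero]; exact dg_mem X) (a := a) (b := b) (by omega)
  rwa [comp_dg] at h1

theorem global_tfae (hS : IsStandard H) :
    [∀ X : 𝒱.Obj, Independent H X, ∀ X : 𝒱.Obj, Vanishing H X, ∀ X : 𝒱.Obj, TruncInd H X,
      TriangularAll H, FunctorialAll H,
      ∀ X : 𝒱.Obj, HasCK H X → (∃ π : ℕ → C.A (X.prod X), IsCK H X π ∧ Triangular π) ∧
        NoPhantom H X].TFAE := by
  have hI : HasIso C := hasIso_of_std H hS
  tfae_have 1 → 2 := by
    intro h X π hπ i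
    rw [ckF_zero_iff hπ]
    exact fun j hj x hx => F_zero_of_independent (h X) hπ hj hx
  tfae_have 2 → 4 := fun h X Y π π' hπ hπ' e Γ hΓ a b hab =>
    triangular_of_vanishing (fun ρ hρ i => h _ ρ hρ i) hπ hπ' hΓ hab
  tfae_have 4 → 5 := fun h X Y π π' hπ hπ' i i' Γ hΓ n x hx =>
    respects_of_triangular hπ hπ' hΓ (fun a b hab => h X Y π π' hπ hπ' _ Γ hΓ a b hab) hx
  tfae_have 5 → 1 := by
    intro h X π π' hπ hπ' i n
    have key : ∀ π π' : ℕ → C.A (X.prod X), IsCK H X π → IsCK H X π' →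
        ckF π i n ≤ ckF π' i n := by
      intro π π' hπ hπ' x hx
      have h1 := h X X π π' hπ hπ' i i (dg C X)
        (by rw [sub_self, add_zero]; exact dg_mem X) n x hx
      rwa [act_dg] at h1
    exact le_antisymm (key π π' hπ hπ') (key π' π hπ' hπ)
  tfae_have 4 → 3 := by
    intro h X π π' hπ hπ' a b hab
    have h1 := h X X π π' hπ hπ' 0 (dg C X) (by rw [add_zero]; exact dg_mem X) a b (by omega)
    rwa [comp_dg] at h1
  tfae_have 3 → 1 := fun h X => independent_of_orth (h X)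
  tfae_have 3 → 6 := fun h X hX => ((truncInd_tfae hX).out 0 2).1 (h X)
  tfae_have 6 → 3 := by
    intro h X π π' hπ hπ'
    have h1 : TruncInd H X := ((truncInd_tfae ⟨π, hπ⟩).out 2 0).1 (h X ⟨π, hπ⟩)
    exact h1 π π' hπ hπ'
  tfae_finish

theorem reduction (hS : IsStandard H) (𝒟 : Set 𝒱.Obj) (h1 : ∀ Y ∈ 𝒟, Y.prod Y ∈ 𝒟)
    (h2 : ∀ Y ∈ 𝒟, HasCK H Y) (h3 : ∀ Y ∈ 𝒟, Independent H Y) (X : 𝒱.Obj)
    (hX : ∃ Y ∈ 𝒟, IsRetract C X Y) : HasCK H X ∧ TruncInd H X ∧ Independent H X := by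
  have hI : HasIso C := hasIso_of_std H hS
  obtain ⟨Y, hY, hXY⟩ := hX
  have h4 : TruncInd H Y := truncInd_of_square hS (h3 _ (h1 Y hY))
  have h5 := h4.retract (h2 Y hY) hXY
  exact ⟨h5.1, h5.2, independent_of_truncInd h5.2⟩

end Pool.Agent.W550.Murre
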