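import Pool.Agent.W550.Murre.CK

/-!
# Murre's independence is equivalent to half of Murre's vanishing
-/

open CategoryTheory AlgebraicGeometry

universe u v w

namespace Pool.Agent.W550.Murre

open Pool.Agent.H914 Pool.Agent.H914.VarClass Pool.Agent.H914.VarClass.Obj Pool.Agent.W492.BB
  Pool.Agent.W550.Corr

variable {k : Type u} [Field k] {𝒱 : VarClass k} {C : TheoryData.{u, v, 0} 𝒱 ℚ} {K : Type w}
  [Field K] {H : WeilTheoryData.{u, v, w} C K} [hC : IsChow C] [hH : IsWeil H] [hI : HasIso C]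
  {X Y Z : 𝒱.Obj}

lemma deg_comp {e f : ℤ} {Γ : C.A (X.prod Y)} {Δ : C.A (Y.prod Z)}
    (hΓ : Γ ∈ C.gr (X.prod Y) (X.dim + e)) (hΔ : Δ ∈ C.gr (Y.prod Z) (Y.dim + f)) :
    C.comp Γ Δ ∈ C.gr (X.prod Z) (X.dim + (e + f)) := by
  have h := C.push_mem (t13 X Y Z) (C.mul_mem (C.pull_mem (t23 X Y Z) hΔ)
    (C.pull_mem (fst (X.prod Y) Z) hΓ))
  have e1 : (Y.dim : ℤ) + f + (X.dim + e) +
      1 * (((X.prod Z).dim : ℤ) - (((X.prod Y).prod Z).dim : ℤ)) = X.dim + (e + f) := by
    simp only [dim_prod]; push_cast; ring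
  rwa [e1] at h

lemma deg_comp0 {Γ Δ : C.A (X.prod X)} (hΓ : Γ ∈ C.gr (X.prod X) X.dim)
    (hΔ : Δ ∈ C.gr (X.prod X) X.dim) : C.comp Γ Δ ∈ C.gr (X.prod X) X.dim := by
  have h1 : Γ ∈ C.gr (X.prod X) (X.dim + 0) := by rwa [add_zero]
  have h2 : Δ ∈ C.gr (X.prod X) (X.dim + 0) := by rwa [add_zero]
  simpa using deg_comp h1 h2

/-- Independence moves the filtration along `1 + N`. -/
lemma Independent.act_mem (hX : Independent H X) {π : ℕ → C.A (X.prod X)} (hπ : IsCK H X π)
    {N : C.A (X.prod X)} (hN : N ∈ C.gr (X.prod X) X.dim) (hN0 : H.cl N = 0)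
    (hN2 : C.comp N N = 0) {i : ℕ} {n : ℤ} {x : C.A X} (hx : x ∈ ckF π i n) :
    C.act N x ∈ ckF π i n := by
  have hconj := hπ.conj hN hN0 hN2
  have h1 := hX _ _ hconj hπ i n
  have h2 : x + C.act N x ∈ ckF π i n := by
    rw [← h1]
    rw [hπ.mem_ckF] at hx
    rw [hconj.mem_ckF]
    refine ⟨Submodule.add_mem _ hx.1 ?_, fun j hj => ?_⟩
    · have h3 := Pool.Agent.W492.BB.act_mem (e := 0) (by rwa [add_zero]) hx.1 (Γ := N)
      rwa [add_zero] at h3
    · have h4 : C.act (dg C X - N) (x + C.act N x) = x := by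
        rw [C.act_sub, act_dg, act_map_add, ← C.act_comp, hN2, C.act_zero, add_zero,
          add_sub_cancel_right]
      rw [C.act_comp, C.act_comp, h4, hx.2 j hj, C.act_map_zero]
  have h3 := Submodule.sub_mem _ h2 hx
  rwa [add_sub_cancel_left] at h3

/-! ### Part A: independence for `X` implies `F^0 = CH` for `X` -/

lemma ext_mem {i j : ℤ} {a : C.A X} {b : C.A Y} (ha : a ∈ C.gr X i) (hb : b ∈ C.gr Y j) :
    C.ext a b ∈ C.gr (X.prod Y) (i + j) := C.mul_mem (C.pull_mem _ ha) (C.pull_mem _ hb)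

lemma comp_ext_self (β x : C.A X) : C.comp (C.ext β x) (C.ext β x) =
    C.push (t13 X X X) (C.pull (fst (X.prod X) X ≫ snd X X) (β * x)) * C.ext β x := by
  rw [TheoryData.comp]
  have h1 : C.pull (t23 X X X) (C.ext β x) * C.pull (fst (X.prod X) X) (C.ext β x) =
      C.pull (fst (X.prod X) X ≫ snd X X) (β * x) * C.pull (t13 X X X) (C.ext β x) := by
    simp only [TheoryData.ext, map_mul, ← C.pull_comp, t23_fst, t23_snd, t13_fst, t13_snd]
    have hc := fun (a b : C.A ((X.prod X).prod X)) => chow_mul_comm a b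
    generalize C.pull (fst (X.prod X) X ≫ snd X X) β = p
    generalize C.pull (fst (X.prod X) X ≫ snd X X) x = q
    generalize C.pull (snd (X.prod X) X) x = r
    generalize C.pull (fst (X.prod X) X ≫ fst X X) β = s
    rw [mul_assoc, mul_assoc, hc r (s * q), ← mul_assoc q s r, hc s q]
  rw [h1, C.proj_right]

theorem F_zero_of_independent [hS : IsStandard H] (hX : Independent H X)
    {π : ℕ → C.A (X.prod X)} (hπ : IsCK H X π) {i j : ℕ} (hij : 2 * i < j) {x : C.A X}
    (hx : x ∈ C.gr X i) : C.act (π j) x = 0 := by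
  rcases lt_or_ge X.dim i with hd | hd
  · rw [hS.gr_top X i x (by exact_mod_cast hd) hx, C.act_map_zero]
  obtain ⟨h, hh, q, hq⟩ := hS.polarized X
  have hpow : ∀ n : ℕ, h ^ n ∈ C.gr X n := by
    intro n
    induction n with
    | zero => rw [pow_zero]; exact_mod_cast C.one_mem X
    | succ n ih =>
      rw [pow_succ]
      have := C.mul_mem ih hh
      exact_mod_cast this
  set x' : C.A X := C.act (π j) x with hx'
  have hx'm : x' ∈ C.gr X i := by
    have := Pool.Agent.W492.BB.act_mem (e := 0) (by rw [add_zero]; exact hπ.deg j) hx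
    rwa [add_zero] at this
  have hx'0 : H.cl x' = 0 := by
    rw [hx', cl_act, hπ.coh j (2 * i) _ (H.cl_mem hx), if_neg (by omega)]
  set α : C.A X := h ^ i with hα
  set β : C.A X := q • h ^ (X.dim - i) with hβ
  have hβm : β ∈ C.gr X ((X.dim : ℤ) - i) := by
    have := Submodule.smul_mem _ q (hpow (X.dim - i))
    rwa [Nat.cast_sub hd] at this
  have hβα : β * α = q • h ^ X.dim := by
    rw [hβ, hα, smul_mul_assoc, ← pow_add, Nat.sub_add_cancel hd]
  set α' : C.A X := C.act (π (2 * i)) α with hα'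
  have hα'm : α' ∈ C.gr X i := by
    have := Pool.Agent.W492.BB.act_mem (e := 0) (by rw [add_zero]; exact hπ.deg (2 * i)) (hpow i)
    rwa [add_zero] at this
  have hα'c : H.cl α' = H.cl α := by
    rw [hα', cl_act, hπ.coh (2 * i) (2 * i) _ (H.cl_mem (hpow i)), if_pos (by push_cast; ring)]
  -- the degree of `β α'`
  have hone : C.push (snd X X) (C.pull (fst X X) (β * α')) = 1 := by
    rw [← sub_eq_zero]
    apply hS.cl_inj X
    · refine Submodule.sub_mem _ ?_ (C.one_mem X)
      have := C.push_mem (snd X X) (C.pull_mem (fst X X) (C.mul_mem hβm hα'm))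
      rwa [show (X.dim : ℤ) - i + i + 1 * ((X.dim : ℤ) - ((X.prod X).dim : ℤ)) = 0 by
        simp only [dim_prod]; push_cast; ring] at this
    · rw [map_sub, H.cl_push, H.cl_pull, map_mul, hα'c, ← map_mul, ← H.cl_pull, ← H.cl_push,
        hβα, ← map_sub]
      have : C.push (snd X X) (C.pull (fst X X) (q • h ^ X.dim)) = 1 := hq.2.2 X
      rw [this, sub_self, map_zero]
  -- the correspondence
  have hNm : C.ext β x' ∈ C.gr (X.prod X) X.dim := by
    have := ext_mem hβm hx'm
    rwa [sub_add_cancel] at this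
  have hN0 : H.cl (C.ext β x') = 0 := by
    rw [cl_ext, hx'0, TheoryData.ext, map_zero, mul_zero]
  have hN2 : C.comp (C.ext β x') (C.ext β x') = 0 := by
    rw [comp_ext_self]
    have : C.push (t13 X X X) (C.pull (fst (X.prod X) X ≫ snd X X) (β * x')) = 0 := by
      apply hS.cl_inj (X.prod X)
      · have := C.push_mem (t13 X X X) (C.pull_mem (fst (X.prod X) X ≫ snd X X)
          (C.mul_mem hβm hx'm))
        rwa [show (X.dim : ℤ) - i + i + 1 * (((X.prod X).dim : ℤ) - (((X.prod X).prod X).dim : ℤ))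
          = 0 by simp only [dim_prod]; push_cast; ring] at this
      · rw [H.cl_push, H.cl_pull, map_mul, hx'0, mul_zero, map_zero, map_zero]
    rw [this, zero_mul]
  have hact : C.act (C.ext β x') α' = x' := by
    rw [C.act_apply, TheoryData.ext, chow_mul_comm (C.pull (fst X X) β), mul_assoc, ← map_mul,
      C.proj_left, hone, mul_one]
  have hα'F : α' ∈ ckF π i 0 := by
    rw [hπ.mem_ckF]
    refine ⟨hα'm, fun l hl => ?_⟩
    exact hπ.act_orth (by omega) α
  have h1 := hX.act_mem hπ hNm hN0 hN2 hα'F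
  rw [hact, hπ.mem_ckF] at h1
  have h2 := h1.2 j (by omega)
  rwa [hx', hπ.act_idem] at h2

/-! ### Part A': independence for `X` implies that self-correspondences respect the filtration -/

theorem stable_of_independent (hX : Independent H X) {π : ℕ → C.A (X.prod X)}
    (hπ : IsCK H X π) {ν : C.A (X.prod X)} (hν : ν ∈ C.gr (X.prod X) X.dim) {i : ℕ} {n : ℤ}
    {x : C.A X} (hx : x ∈ ckF π i n) : C.act ν x ∈ ckF π i n := by
  have hx1 := hx
  rw [hπ.mem_ckF] at hx1
  rw [hπ.mem_ckF]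
  have hνx : C.act ν x ∈ C.gr X i := by
    have := Pool.Agent.W492.BB.act_mem (e := 0) (by rwa [add_zero]) hx1.1 (Γ := ν)
    rwa [add_zero] at this
  refine ⟨hνx, fun a ha => ?_⟩
  rw [hπ.total x, act_map_sum, act_map_sum]
  refine Finset.sum_eq_zero fun b _ => ?_
  rcases lt_or_ge (2 * (i : ℤ) - n) b with hb | hb
  · rw [hx1.2 b hb, C.act_map_zero, C.act_map_zero]
  have hab : a ≠ b := by omega
  set N : C.A (X.prod X) := C.comp (C.comp (π b) ν) (π a) with hN
  have hNm : N ∈ C.gr (X.prod X) X.dim := deg_comp0 (deg_comp0 (hπ.deg b) hν) (hπ.deg a)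
  have hN0 : H.cl N = 0 := by
    apply eq_zero_of_act H
    intro c
    have h2 : c ∈ ⨆ l, H.gr X l := by
      rw [(H.isInternal X).submodule_iSup_eq_top]; trivial
    have h3 : ⨆ l, H.gr X l ≤ LinearMap.ker (H.actL (H.cl N)) := by
      refine iSup_le fun l c hc => LinearMap.mem_ker.2 ?_
      change H.act (H.cl N) c = 0
      rw [hN, cl_comp, cl_comp, H.act_comp, H.act_comp, hπ.coh b l c hc]
      split_ifs with hl
      · have h4 := actH_mem H (e := 0) (Γ := ν) (by rwa [add_zero]) hc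
        rw [hπ.coh a _ _ h4, if_neg (by omega)]
      · rw [H.act_map_zero, H.act_map_zero]
    exact LinearMap.mem_ker.1 (h3 h2)
  have hN2 : C.comp N N = 0 := by
    rw [hN, comp_assoc C (C.comp (π b) ν) (π a), comp_assoc C (π b) ν (π a), hπ.orthR hab,
      comp_zero]
  have hy : C.act (π b) x ∈ ckF π i n := by
    rw [hπ.mem_ckF]
    refine ⟨?_, fun l hl => hπ.act_orth (by omega) x⟩
    have := Pool.Agent.W492.BB.act_mem (e := 0) (by rw [add_zero]; exact hπ.deg b) hx1.1
    rwa [add_zero] at this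
  have h5 := hX.act_mem hπ hNm hN0 hN2 hy
  rw [hπ.mem_ckF] at h5
  have h6 := h5.2 a ha
  rw [hN, C.act_comp, C.act_comp, hπ.act_idem, hπ.act_idem] at h6
  exact h6

/-! ### Part B: the equivalence for all varieties -/

lemma ckF_zero_iff {π : ℕ → C.A (X.prod X)} (hπ : IsCK H X π) {i : ℕ} :
    ckF π i 0 = C.gr X i ↔ ∀ j : ℕ, 2 * i < j → ∀ x ∈ C.gr X i, C.act (π j) x = 0 := by
  constructor
  · intro h j hj x hx
    rw [← h, hπ.mem_ckF] at hx
    exact hx.2 j (by omega)
  · intro h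
    ext x
    rw [hπ.mem_ckF]
    exact ⟨fun hx => hx.1, fun hx => ⟨hx, fun j hj => h j (by omega) x hx⟩⟩

/-- The vanishing for `X × Y` implies the triangularity of correspondences from `X` to `Y`. -/
theorem triangular_of_vanishing [hS : IsStandard H]
    (hV : ∀ ρ : ℕ → C.A ((X.prod Y).prod (X.prod Y)), IsCK H (X.prod Y) ρ → ∀ i : ℕ,
      ckF ρ i 0 = C.gr (X.prod Y) i)
    {π : ℕ → C.A (X.prod X)} {π' : ℕ → C.A (Y.prod Y)} (hπ : IsCK H X π) (hπ' : IsCK H Y π')
    {e : ℤ} {Γ : C.A (X.prod Y)} (hΓ : Γ ∈ C.gr (X.prod Y) (X.dim + e)) {a b : ℕ}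
    (hab : (b : ℤ) + 2 * e < a) : C.comp (C.comp (π b) Γ) (π' a) = 0 := by
  rcases lt_or_ge (2 * X.dim) b with hb | hb
  · rw [hπ.vanish b hb, zero_comp, zero_comp]
  rcases lt_or_ge (2 * Y.dim) a with ha | ha
  · rw [hπ'.vanish a ha, comp_zero]
  rcases lt_or_ge ((X.dim : ℤ) + e) 0 with he | he
  · rw [C.gr_neg _ _ he] at hΓ
    rw [(Submodule.mem_bot _).1 hΓ, comp_zero, zero_comp]
  obtain ⟨i, hi⟩ := Int.eq_ofNat_of_zero_le he
  rw [hi] at hΓ
  have hρ := hπ.dual.prod hπ'
  set l : ℕ := 2 * X.dim - b + a with hl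
  have h1 := (ckF_zero_iff hρ (i := i)).1 (hV _ hρ i) l (by omega) Γ hΓ
  -- the sum of all components of weight `l`
  have h2 : C.act (prodCK (dualCK π) π' l) Γ =
      ∑ s ∈ Finset.range (2 * X.dim + 1), ∑ t ∈ Finset.range (2 * Y.dim + 1),
        if s + t = l then C.comp (C.comp (π (2 * X.dim - s)) Γ) (π' t) else 0 := by
    rw [prodCK, act_sum]
    refine Finset.sum_congr rfl fun s hs => ?_
    rw [act_sum]
    refine Finset.sum_congr rfl fun t ht => ?_
    split_ifs
    · rw [act_tens, dualCK, if_pos (by rw [Finset.mem_range] at hs; omega), tp_tp]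
    · exact C.act_zero _
  rw [h2] at h1
  have h3 := congrArg (fun z => C.comp (C.comp (π b) z) (π' a)) h1
  beta_reduce at h3
  rw [comp_zero, zero_comp, comp_sum, sum_comp, Finset.sum_eq_single (2 * X.dim - b), comp_sum,
    sum_comp, Finset.sum_eq_single a, if_pos (by omega)] at h3
  · rw [show 2 * X.dim - (2 * X.dim - b) = b by omega, ← comp_assoc, ← comp_assoc, hπ.idem,
      comp_assoc C (C.comp (π b) Γ), hπ'.idem] at h3
    exact h3
  · intro t _ ht
    split_ifs
    · rw [← comp_assoc, comp_assoc C _ (π' t), hπ'.orth t a ht, comp_zero]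
    · rw [comp_zero, zero_comp]
  · intro h
    exact absurd (Finset.mem_range.2 (by omega)) h
  · intro s hs hsb
    rw [Finset.mem_range] at hs
    rw [comp_sum, sum_comp]
    refine Finset.sum_eq_zero fun t _ => ?_
    split_ifs
    · rw [← comp_assoc, ← comp_assoc, hπ.orth b (2 * X.dim - s) (by omega), zero_comp, zero_comp,
        zero_comp]
    · rw [comp_zero, zero_comp]
  · intro h
    exact absurd (Finset.mem_range.2 (by omega)) h

/-- Triangularity implies that correspondences respect the filtrations. -/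
lemma respects_of_triangular {π : ℕ → C.A (X.prod X)} {π' : ℕ → C.A (Y.prod Y)}
    (hπ : IsCK H X π) (hπ' : IsCK H Y π') {i i' : ℕ} {Γ : C.A (X.prod Y)}
    (hΓ : Γ ∈ C.gr (X.prod Y) (X.dim + (i' - i)))
    (h : ∀ a b : ℕ, (b : ℤ) + 2 * (i' - i) < a → C.comp (C.comp (π b) Γ) (π' a) = 0) {n : ℤ}
    {x : C.A X} (hx : x ∈ ckF π i n) : C.act Γ x ∈ ckF π' i' n := by
  rw [hπ.mem_ckF] at hx
  rw [hπ'.mem_ckF]
  refine ⟨?_, fun a ha => ?_⟩
  · have := Pool.Agent.W492.BB.act_mem hΓ hx.1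
    rwa [show (i : ℤ) + (i' - i) = i' by ring] at this
  · rw [hπ.total x, act_map_sum, act_map_sum]
    refine Finset.sum_eq_zero fun b _ => ?_
    rcases lt_or_ge (2 * (i : ℤ) - n) b with hb | hb
    · rw [hx.2 b hb, C.act_map_zero, C.act_map_zero]
    · rw [← C.act_comp, ← C.act_comp, ← comp_assoc, h a b (by omega), C.act_zero]

lemma dg_mem (X : 𝒱.Obj) : dg C X ∈ C.gr (X.prod X) X.dim := by
  have h := C.push_mem (Obj.lift (𝟙 X) (𝟙 X)) (C.one_mem X)
  have e1 : (0 : ℤ) + 1 * (((X.prod X).dim : ℤ) - (X.dim : ℤ)) = X.dim := by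
    simp only [dim_prod]; push_cast; ring
  rwa [e1] at h

/-- Independence from the equality of the truncations. -/
lemma independent_of_orth (h : ∀ π π' : ℕ → C.A (X.prod X), IsCK H X π → IsCK H X π' →
    ∀ a b : ℕ, b < a → C.comp (π b) (π' a) = 0) : Independent H X := by
  have key : ∀ π π' : ℕ → C.A (X.prod X), IsCK H X π → IsCK H X π' → ∀ (i : ℕ) (n : ℤ),
      ckF π i n ≤ ckF π' i n := by
    intro π π' hπ hπ' i n x hx
    have h1 := respects_of_triangular hπ hπ' (i := i) (i' := i) (Γ := dg C X)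
      (by rw [sub_self, add_zero]; exact dg_mem X) (fun a b hab => by
        rw [comp_dg]; exact h π π' hπ hπ' a b (by omega)) hx
    rwa [act_dg] at h1
  exact fun π π' hπ hπ' i n => le_antisymm (key π π' hπ hπ' i n) (key π' π hπ' hπ i n)

end Pool.Agent.W550.Murre
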