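import Pool.Agent.W550.Murre.Orth

/-!
# Systems of orthogonal idempotents with prescribed images
-/

namespace Pool.Agent.W550.Murre

variable {R S : Type*} [Ring R] [Ring S]

/-- A complete system of orthogonal idempotents with prescribed images. -/
structure IsSys (φ : R →+* S) (n : ℕ) (h : ℕ → S) (p : ℕ → R) : Prop where
  mul : ∀ i j, p i * p j = if i = j then p i else 0
  sum : ∑ j ∈ Finset.range n, p j = 1
  zero : ∀ j, n ≤ j → p j = 0
  map : ∀ j, φ (p j) = h j

/-- Triangularity of the ring with respect to the system. -/
def Tri (p : ℕ → R) : Prop := ∀ (x : R) (b a : ℕ), b < a → p b * x * p a = 0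

/-- Two systems are compatible. -/
def Compat (p q : ℕ → R) : Prop := ∀ b a : ℕ, b < a → p b * q a = 0

/-- No nonzero idempotents with zero image. -/
def NoPh (φ : R →+* S) : Prop := ∀ e : R, e * e = e → φ e = 0 → e = 0

variable {φ : R →+* S} {n : ℕ} {h : ℕ → S} {p q : ℕ → R}

namespace IsSys

lemma idem (hp : IsSys φ n h p) (i : ℕ) : p i * p i = p i := by rw [hp.mul, if_pos rfl]

lemma orth (hp : IsSys φ n h p) {i j : ℕ} (hij : i ≠ j) : p i * p j = 0 := by
  rw [hp.mul, if_neg hij]

/-- Conjugation by `1 + N`. -/
lemma conj (hp : IsSys φ n h p) {N : R} (hN : N * N = 0) (hφ : φ N = 0) :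
    IsSys φ n h (fun j => (1 - N) * p j * (1 + N)) := by
  have hu : (1 + N) * (1 - N) = 1 := by
    have : (1 + N) * (1 - N) = 1 - N * N := by noncomm_ring
    rw [this, hN, sub_zero]
  have hu' : (1 - N) * (1 + N) = 1 := by
    have : (1 - N) * (1 + N) = 1 - N * N := by noncomm_ring
    rw [this, hN, sub_zero]
  refine ⟨fun i j => ?_, ?_, fun j hj => ?_, fun j => ?_⟩
  · calc (1 - N) * p i * (1 + N) * ((1 - N) * p j * (1 + N)) =
        (1 - N) * (p i * ((1 + N) * (1 - N)) * p j) * (1 + N) := by simp only [mul_assoc]
      _ = _ := by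
        rw [hu, mul_one, hp.mul]
        split_ifs
        · rfl
        · rw [mul_zero, zero_mul]
  · rw [← Finset.sum_mul, ← Finset.mul_sum, hp.sum, mul_one, hu']
  · rw [hp.zero j hj, mul_zero, zero_mul]
  · rw [map_mul, map_mul, map_sub, map_add, hφ, map_one, sub_zero, add_zero, one_mul, mul_one,
      hp.map]

/-- Moving an idempotent. -/
lemma move (hp : IsSys φ n h p) {f : R} {j l : ℕ} (hjl : j ≠ l) (hj : j < n) (hl : l < n)
    (hf : f * f = f) (h1 : p j * f = f) (h2 : f * p j = f) (hφ : φ f = 0) :
    IsSys φ n h (fun i => if i = j then p j - f else if i = l then p l + f else p i) := by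
  have h3 : ∀ i, i ≠ j → p i * f = 0 := by
    intro i hi
    rw [← h1, ← mul_assoc, hp.orth hi, zero_mul]
  have h4 : ∀ i, i ≠ j → f * p i = 0 := by
    intro i hi
    rw [← h2, mul_assoc, hp.orth (Ne.symm hi), mul_zero]
  refine ⟨fun i i' => ?_, ?_, fun i hi => ?_, fun i => ?_⟩
  · by_cases hi : i = j
    · subst hi
      by_cases hi' : i' = i
      · subst hi'
        simp only [if_true, sub_mul, mul_sub, hp.idem, h1, h2, hf, sub_self, sub_zero]
      · rw [if_pos rfl, if_neg hi', if_neg (Ne.symm hi')]
        split_ifs with h5
        · rw [sub_mul, mul_add, mul_add, hp.orth hjl, h1, h4 _ (Ne.symm hjl), hf]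
          abel
        · rw [sub_mul, hp.orth (Ne.symm hi'), h4 _ hi', sub_zero]
    · rw [if_neg hi]
      by_cases hil : i = l
      · subst hil
        rw [if_pos rfl]
        by_cases hi' : i' = j
        · subst hi'
          rw [if_pos rfl, if_neg hi, mul_sub, add_mul, add_mul, hp.orth hi, h2, h3 _ hi, hf]
          abel
        · rw [if_neg hi']
          by_cases hil' : i' = i
          · subst hil'
            rw [if_pos rfl, if_pos rfl, add_mul, mul_add, mul_add, hp.idem, h3 _ hi, h4 _ hi, hf]
            abel
          · rw [if_neg hil', if_neg (Ne.symm hil'), add_mul, hp.orth (Ne.symm hil'), h4 _ hi',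
              add_zero]
      · rw [if_neg hil]
        by_cases hi' : i' = j
        · subst hi'
          rw [if_pos rfl, if_neg hi, mul_sub, hp.orth hi, h3 _ hi, sub_zero]
        · rw [if_neg hi']
          by_cases hil' : i' = l
          · subst hil'
            rw [if_pos rfl, if_neg hil, mul_add, hp.orth hil, h3 _ hi, add_zero]
          · rw [if_neg hil', hp.mul]
  · have h5 : ∀ i ∈ Finset.range n, (if i = j then p j - f else if i = l then p l + f else p i) =
        p i + ((if i = j then -f else 0) + (if i = l then f else 0)) := by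
      intro i _
      split_ifs with h6 h7 h8
      · exact absurd (h6.symm.trans h7) hjl
      · rw [h6]; abel
      · rw [h8]; abel
      · abel
    rw [Finset.sum_congr rfl h5, Finset.sum_add_distrib, Finset.sum_add_distrib, hp.sum,
      Finset.sum_ite_eq', Finset.sum_ite_eq', if_pos (Finset.mem_range.2 hj),
      if_pos (Finset.mem_range.2 hl)]
    abel
  · rw [if_neg (by omega), if_neg (by omega), hp.zero i hi]
  · split_ifs with h6 h7
    · rw [map_sub, hφ, sub_zero, h6, hp.map]
    · rw [map_add, hφ, add_zero, h7, hp.map]
    · exact hp.map i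

/-- Compatible systems imply triangularity. -/
lemma tri_of_compat (hp : IsSys φ n h p) (hφ : ∀ (x : R) (b a : ℕ), b ≠ a → φ (p b * x * p a) = 0)
    (hc : ∀ q, IsSys φ n h q → Compat p q) : Tri p := by
  intro x b a hba
  set N : R := p b * x * p a with hN
  have h1 : N * N = 0 := by
    calc N * N = p b * x * (p a * p b) * x * p a := by rw [hN]; simp only [mul_assoc]
      _ = 0 := by rw [hp.orth (by omega)]; simp
  have h2 := hc _ (hp.conj h1 (hφ x b a (by omega))) b a hba
  beta_reduce at h2
  have h3 : p b * N = N := by rw [hN, ← mul_assoc, ← mul_assoc, hp.idem]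
  have h4 : N * p a = N := by rw [hN, mul_assoc, hp.idem]
  have h5 : p b * ((1 - N) * p a * (1 + N)) = -N := by
    calc p b * ((1 - N) * p a * (1 + N)) = (p b * p a - p b * N * p a) * (1 + N) := by
          noncomm_ring
      _ = _ := by
        rw [hp.orth (by omega), h3, h4, zero_sub, neg_mul, mul_add, mul_one, h1, add_zero]
  rw [h5] at h2
  exact neg_eq_zero.1 h2

end IsSys

/-- Elements of the corrected system commute with whatever commutes with the original one. -/
lemma commute_qs {P : ℕ → R} {e : R} (he : ∀ j, Commute e (P j)) (j : ℕ) :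
    Commute e (qs P n j) := by
  have h1 : ∀ m, Commute e (ps P m) := fun m => Commute.sum_right _ _ _ fun i _ => he i
  have h2 : ∀ m, Commute e (tru P n m) := by
    intro m
    induction m with
    | zero => exact Commute.one_right e
    | succ m ih => exact ih.mul_right (h1 _)
  rw [qs]
  split_ifs
  · exact (h2 _).sub_right (h2 _)
  · exact Commute.zero_right e

/-- The corrected system. -/
lemma isSys_qs {P : ℕ → R} (hsum : ps P n = 1) (htri : ∀ i j, i < j → P i * P j = 0)
    (hmap : ∀ j < n, φ (P j) = h j) (h0 : ∀ j, n ≤ j → h j = 0)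
    (horth : ∀ i j, i ≠ j → φ (P i) * φ (P j) = 0) : IsSys φ n h (qs P n) where
  mul := qs_mul hsum htri
  sum := sum_qs hsum
  zero j hj := by rw [qs, if_neg (by omega)]
  map j := by
    rcases lt_or_ge j n with hj | hj
    · rw [map_qs φ hsum horth j hj, hmap j hj]
    · rw [qs, if_neg (by omega), map_zero, h0 j hj]

/-- If any two systems are compatible, then there are no phantoms. -/
theorem noPh_of_compat (hn : 2 ≤ n) (hp : IsSys φ n h p) (ht : Tri p)
    (hc : ∀ q q', IsSys φ n h q → IsSys φ n h q' → Compat q q') : NoPh φ := by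
  intro e he hφe
  have h1e : (1 - e) * (1 - e) = 1 - e := by
    calc (1 - e) * (1 - e) = 1 - e - e + e * e := by noncomm_ring
      _ = _ := by rw [he]; abel
  have h1e' : (1 - e) * e = 0 := by rw [sub_mul, one_mul, he, sub_self]
  have he1 : e * (1 - e) = 0 := by rw [mul_sub, mul_one, he, sub_self]
  let P : ℕ → R := fun j => (1 - e) * p j * (1 - e) + e * p j * e
  have hPs : ps P n = 1 := by
    have h1 : ps P n = (1 - e) * (∑ j ∈ Finset.range n, p j) * (1 - e) +
        e * (∑ j ∈ Finset.range n, p j) * e := by
      rw [ps, Finset.sum_add_distrib, Finset.mul_sum, Finset.mul_sum, Finset.sum_mul,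
        Finset.sum_mul]
    rw [h1, hp.sum, mul_one, mul_one, h1e, he, sub_add_cancel]
  have hPt : ∀ i j, i < j → P i * P j = 0 := by
    intro i j hij
    calc P i * P j = (1 - e) * (p i * ((1 - e) * (1 - e)) * p j) * (1 - e) +
          (1 - e) * p i * ((1 - e) * e) * p j * e + e * p i * (e * (1 - e)) * p j * (1 - e) +
          e * (p i * (e * e) * p j) * e := by
          simp only [P]; noncomm_ring
      _ = 0 := by rw [h1e', he1, ht _ i j hij, ht _ i j hij]; simp
  have hPφ : ∀ j, φ (P j) = h j := by
    intro j
    simp only [P]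
    rw [map_add, map_mul, map_mul, map_mul, map_mul, map_sub, hφe, map_one, sub_zero, one_mul,
      mul_one, zero_mul, zero_mul, add_zero, hp.map]
  have hh : ∀ i j, i ≠ j → h i * h j = 0 := by
    intro i j hij
    rw [← hp.map, ← hp.map, ← map_mul, hp.orth hij, map_zero]
  have hq : IsSys φ n h (qs P n) := isSys_qs hPs hPt (fun j _ => hPφ j)
    (fun j hj => by rw [← hp.map, hp.zero j hj, map_zero])
    (fun i j hij => by rw [hPφ, hPφ, hh i j hij])
  have hcomm : ∀ j, Commute e (qs P n j) := by
    intro j
    refine commute_qs (fun j => ?_) j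
    have e1 : e * P j = e * p j * e := by
      calc e * P j = e * (1 - e) * p j * (1 - e) + e * e * p j * e := by
            simp only [P]; noncomm_ring
        _ = _ := by rw [he1, he, zero_mul, zero_mul, zero_add]
    have e2 : P j * e = e * p j * e := by
      calc P j * e = (1 - e) * p j * ((1 - e) * e) + e * p j * (e * e) := by
            simp only [P]; noncomm_ring
        _ = _ := by rw [h1e', he, mul_zero, zero_add]
    exact e1.trans e2.symm
  have hz : ∀ j < n, e * qs P n j = 0 := by
    intro j hj
    set f : R := e * qs P n j with hf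
    have hff : f * f = f := by
      calc f * f = e * (qs P n j * e) * qs P n j := by rw [hf]; simp only [mul_assoc]
        _ = (e * e) * (qs P n j * qs P n j) := by rw [← (hcomm j).eq]; simp only [mul_assoc]
        _ = f := by rw [he, hq.idem]
    have h1 : qs P n j * f = f := by
      rw [hf, ← mul_assoc, ← (hcomm j).eq, mul_assoc, hq.idem]
    have h2 : f * qs P n j = f := by rw [hf, mul_assoc, hq.idem]
    have h3 : φ f = 0 := by rw [hf, map_mul, hφe, zero_mul]
    by_cases hj0 : j = 0
    · have hm := hq.move (l := 1) (by omega : j ≠ 1) hj (by omega) hff h1 h2 h3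
      have h4 := hc _ _ hq hm j 1 (by omega)
      rw [if_neg (by omega), if_pos rfl, mul_add, hq.orth (by omega), h1, zero_add] at h4
      exact h4
    · have hm := hq.move (l := 0) hj0 hj (by omega) hff h1 h2 h3
      have h4 := hc _ _ hm hq 0 j (by omega)
      beta_reduce at h4
      rw [if_neg (Ne.symm hj0), if_pos rfl, add_mul, hq.orth (by omega), h2, zero_add] at h4
      exact h4
  calc e = e * ∑ j ∈ Finset.range n, qs P n j := by rw [hq.sum, mul_one]
    _ = 0 := by
      rw [Finset.mul_sum]
      exact Finset.sum_eq_zero fun j hj => hz j (Finset.mem_range.1 hj)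

/-- The diagonal components. -/
lemma diag_idem (hp : IsSys φ n h p) (ht : Tri p) {e : R} (he : e * e = e) (a : ℕ) :
    p a * e * p a * (p a * e * p a) = p a * e * p a := by
  have h1 : p a * e * p a = ∑ c ∈ Finset.range n, p a * e * p c * e * p a := by
    calc p a * e * p a = p a * e * (∑ c ∈ Finset.range n, p c) * e * p a := by
          rw [hp.sum, mul_one, mul_assoc (p a) e e, he]
      _ = _ := by rw [Finset.mul_sum, Finset.sum_mul, Finset.sum_mul]
  rcases lt_or_ge a n with ha | ha
  · rw [Finset.sum_eq_single a] at h1
    · conv_rhs => rw [h1]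
      calc p a * e * p a * (p a * e * p a) = p a * e * (p a * p a) * e * p a := by
            simp only [mul_assoc]
        _ = _ := by rw [hp.idem]
    · intro c _ hca
      rcases lt_or_gt_of_ne hca with h2 | h2
      · calc p a * e * p c * e * p a = p a * e * (p c * e * p a) := by simp only [mul_assoc]
          _ = 0 := by rw [ht e c a h2, mul_zero]
      · calc p a * e * p c * e * p a = (p a * e * p c) * (e * p a) := by simp only [mul_assoc]
          _ = 0 := by rw [ht e a c h2, zero_mul]
    · intro h2
      exact absurd (Finset.mem_range.2 ha) h2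
  · rw [hp.zero a ha]; simp

/-- Comparison of an arbitrary system with a triangular one. -/
theorem compat_of_tri (hp : IsSys φ n h p) (ht : Tri p) (hph : NoPh φ) (hq : IsSys φ n h q) :
    Compat q p ∧ Compat p q := by
  have hh : ∀ i j, i ≠ j → h i * h j = 0 := by
    intro i j hij
    rw [← hp.map, ← hp.map, ← map_mul, hp.orth hij, map_zero]
  have hd : ∀ a b, a ≠ b → p a * q b * p a = 0 := by
    intro a b hab
    refine hph _ (diag_idem hp ht (hq.idem b) a) ?_
    rw [map_mul, map_mul, hp.map, hq.map, hh a b hab, zero_mul]
  have hexp : ∀ b, q b = ∑ c ∈ Finset.range n, q b * p c * q b := by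
    intro b
    calc q b = q b * (∑ c ∈ Finset.range n, p c) * q b := by rw [hp.sum, mul_one, hq.idem]
      _ = _ := by rw [Finset.mul_sum, Finset.sum_mul]
  constructor
  · -- `q b * p a = 0` for `b < a`, by descending induction
    have key : ∀ (b k a : ℕ), n ≤ a + k → b < a → q b * p a = 0 := by
      intro b k
      induction k with
      | zero =>
        intro a ha _
        rw [hp.zero a (by omega), mul_zero]
      | succ k ih =>
        intro a ha hba
        calc q b * p a = ∑ c ∈ Finset.range n, q b * p c * q b * p a := by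
              conv_lhs => rw [hexp b]
              rw [Finset.sum_mul]
          _ = 0 := by
            refine Finset.sum_eq_zero fun c _ => ?_
            rcases lt_trichotomy c a with h1 | h1 | h1
            · calc q b * p c * q b * p a = q b * (p c * q b * p a) := by simp only [mul_assoc]
                _ = 0 := by rw [ht _ c a h1, mul_zero]
            · subst h1
              calc q b * p c * q b * p c = q b * (p c * q b * p c) := by simp only [mul_assoc]
                _ = 0 := by rw [hd c b (by omega), mul_zero]
            · rw [ih c (by omega) (by omega), zero_mul, zero_mul]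
    exact fun b a hba => key b n a (by omega) hba
  · -- `p b * q a = 0` for `b < a`, by induction
    intro b
    induction b using Nat.strong_induction_on with
    | _ b ih =>
      intro a hba
      calc p b * q a = ∑ c ∈ Finset.range n, p b * q a * p c * q a := by
            conv_lhs => rw [hexp a]
            rw [Finset.mul_sum]
            exact Finset.sum_congr rfl fun c _ => by simp only [mul_assoc]
        _ = 0 := by
          refine Finset.sum_eq_zero fun c _ => ?_
          rcases lt_trichotomy b c with h1 | h1 | h1
          · rw [ht _ b c h1, zero_mul]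
          · subst h1
            rw [hd b a (by omega), zero_mul]
          · calc p b * q a * p c * q a = p b * q a * (p c * q a) := by simp only [mul_assoc]
              _ = 0 := by rw [ih c h1 a (by omega), mul_zero]

lemma Compat.trans (hp : IsSys φ n h p) {q q' : ℕ → R} (h1 : Compat q p) (h2 : Compat p q') :
    Compat q q' := by
  intro b a hba
  calc q b * q' a = q b * (∑ c ∈ Finset.range n, p c) * q' a := by rw [hp.sum, mul_one]
    _ = 0 := by
      rw [Finset.mul_sum, Finset.sum_mul]
      refine Finset.sum_eq_zero fun c _ => ?_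
      rcases lt_or_ge b c with h3 | h3
      · rw [h1 b c h3, zero_mul]
      · rw [mul_assoc, h2 c a (by omega), mul_zero]

/-- The characterisation of rings in which any two systems are compatible. -/
theorem compat_tfae (hn : 2 ≤ n) (hp : IsSys φ n h p)
    (hφ : ∀ (x : R) (b a : ℕ), b ≠ a → h b * φ x * h a = 0) :
    [∀ q q', IsSys φ n h q → IsSys φ n h q' → Compat q q',
      (∀ q, IsSys φ n h q → Tri q) ∧ NoPh φ,
      (∃ q, IsSys φ n h q ∧ Tri q) ∧ NoPh φ].TFAE := by
  tfae_have 1 → 2 := by
    intro hc
    have h1 : ∀ q, IsSys φ n h q → Tri q := fun q hq =>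
      hq.tri_of_compat (fun x b a hba => by rw [map_mul, map_mul, hq.map, hq.map, hφ x b a hba])
        (fun q' hq' => hc q q' hq hq')
    exact ⟨h1, noPh_of_compat hn hp (h1 p hp) hc⟩
  tfae_have 2 → 3 := fun h1 => ⟨⟨p, hp, h1.1 p hp⟩, h1.2⟩
  tfae_have 3 → 1 := by
    rintro ⟨⟨r, hr, ht⟩, hph⟩ q q' hq hq'
    exact Compat.trans hr (compat_of_tri hr ht hph hq).1 (compat_of_tri hr ht hph hq').2
  tfae_finish

/-- Triangularity of the corrected system. -/
theorem tri_qs {P : ℕ → R} (hsum : ps P n = 1)
    (htri : ∀ (x : R) (i j : ℕ), i < j → P i * x * P j = 0) : Tri (qs P n) := by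
  have htri' : ∀ i j, i < j → P i * P j = 0 := fun i j hij => by
    have := htri 1 i j hij
    rwa [mul_one] at this
  have h1 : ∀ (x : R) (m : ℕ), m ≤ n → ps P m * x * (1 - ps P m) = 0 := by
    intro x m hm
    have h2 : 1 - ps P m = ∑ j ∈ Finset.Ico m n, P j := by
      rw [← hsum, sub_eq_iff_eq_add', ps, ps, Finset.range_eq_Ico, Finset.range_eq_Ico,
        Finset.sum_Ico_consecutive _ (Nat.zero_le _) hm]
    rw [h2, ps, Finset.sum_mul, Finset.sum_mul_sum]
    refine Finset.sum_eq_zero fun i hi => Finset.sum_eq_zero fun j hj => htri x i j ?_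
    rw [Finset.mem_range] at hi
    rw [Finset.mem_Ico] at hj
    omega
  have h2 : ∀ k, k + 1 ≤ n → tru P n (k + 1) * ps P (n - (k + 1)) = tru P n (k + 1) := by
    intro k hk
    rw [tru, mul_assoc, ps_mul hsum htri' le_rfl (by omega)]
  have h3 : ∀ (x : R) (k : ℕ), k ≤ n → tru P n k * x * (1 - tru P n k) = 0 := by
    intro x k hk
    cases k with
    | zero => rw [tru, sub_self, mul_zero]
    | succ k =>
      have h4 := ps_mul_tru hsum htri' (k + 1) hk (n - (k + 1)) le_rfl
      have h5 : ps P (n - (k + 1)) * x = ps P (n - (k + 1)) * x * ps P (n - (k + 1)) := by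
        have := h1 x (n - (k + 1)) (by omega)
        rw [mul_sub, mul_one, sub_eq_zero] at this
        exact this
      calc tru P n (k + 1) * x * (1 - tru P n (k + 1)) =
          tru P n (k + 1) * (ps P (n - (k + 1)) * x) * (1 - tru P n (k + 1)) := by
            rw [← mul_assoc, h2 k hk]
        _ = tru P n (k + 1) * (ps P (n - (k + 1)) * x) * (ps P (n - (k + 1)) -
            ps P (n - (k + 1)) * tru P n (k + 1)) := by
            conv_lhs => rw [h5]
            noncomm_ring
        _ = 0 := by rw [h4, sub_self, mul_zero]
  intro x b a hba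
  rw [qs, qs]
  by_cases ha : a < n
  · rw [if_pos ha, if_pos (by omega : b < n)]
    -- `t = tru (n - (b+1))`
    have h4 : (tru P n (n - (b + 1)) - tru P n (n - b)) * tru P n (n - (b + 1)) =
        tru P n (n - (b + 1)) - tru P n (n - b) := by
      rw [sub_mul, tru_min hsum htri' (by omega) (by omega), tru_min hsum htri' (by omega)
        (by omega), max_self, max_eq_left (by omega)]
    have h5 : tru P n (n - (b + 1)) * (tru P n (n - (a + 1)) - tru P n (n - a)) = 0 := by
      rw [mul_sub, tru_min hsum htri' (by omega) (by omega), tru_min hsum htri' (by omega)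
        (by omega), max_eq_left (by omega), max_eq_left (by omega), sub_self]
    have h6 : tru P n (n - (b + 1)) * x = tru P n (n - (b + 1)) * x * tru P n (n - (b + 1)) := by
      have := h3 x (n - (b + 1)) (by omega)
      rw [mul_sub, mul_one, sub_eq_zero] at this
      exact this
    calc (tru P n (n - (b + 1)) - tru P n (n - b)) * x *
        (tru P n (n - (a + 1)) - tru P n (n - a)) =
        (tru P n (n - (b + 1)) - tru P n (n - b)) * (tru P n (n - (b + 1)) * x) *
          (tru P n (n - (a + 1)) - tru P n (n - a)) := by
          rw [← mul_assoc _ (tru P n (n - (b + 1))) x, h4]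
      _ = (tru P n (n - (b + 1)) - tru P n (n - b)) * (tru P n (n - (b + 1)) * x) *
          (tru P n (n - (b + 1)) * (tru P n (n - (a + 1)) - tru P n (n - a))) := by
          conv_lhs => rw [h6]
          simp only [mul_assoc]
      _ = 0 := by rw [h5, mul_zero]
  · rw [if_neg ha, mul_zero]

end Pool.Agent.W550.Murre
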