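import Pool.Agent.W550.Murre.Main
import Pool.Agent.W550.Murre.Rings

/-!
# Independence of the truncations of the motive of one variety
-/

open CategoryTheory AlgebraicGeometry

universe u v w

namespace Pool.Agent.W550.Murre

open Pool.Agent.H914 Pool.Agent.H914.VarClass Pool.Agent.H914.VarClass.Obj Pool.Agent.W492.BB
  Pool.Agent.W550.Corr

variable {k : Type u} [Field k] {𝒱 : VarClass k} {C : TheoryData.{u, v, 0} 𝒱 ℚ} {K : Type w}
  [Field K] {H : WeilTheoryData.{u, v, w} C K} [hC : IsChow C] [hH : IsWeil H]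
  {X Y Z : 𝒱.Obj}

/-- The truncations of the motive of `X` (as subobjects) do not depend on the Chow-Kunneth
decomposition: the component from `(X, π b)` to `(X, π' a)` of the identity vanishes for `a > b`. -/
def TruncInd (H : WeilTheoryData.{u, v, w} C K) (X : 𝒱.Obj) : Prop :=
  ∀ π π' : ℕ → C.A (X.prod X), IsCK H X π → IsCK H X π' → ∀ a b : ℕ, b < a →
    C.comp (π b) (π' a) = 0

/-- There are no nonzero morphisms of degree zero from `(X, π b)` to `(X, π a)`, `a > b`. -/
def Triangular (π : ℕ → C.A (X.prod X)) : Prop :=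
  ∀ ν : C.A (X.prod X), C.Deg X.dim ν → ∀ a b : ℕ, b < a →
    C.comp (C.comp (π b) ν) (π a) = 0

/-- A homologically trivial idempotent correspondence of degree zero from `X` to `X` is zero. -/
def NoPhantom (H : WeilTheoryData.{u, v, w} C K) (X : 𝒱.Obj) : Prop :=
  ∀ e : C.A (X.prod X), C.Deg X.dim e → C.comp e e = e → H.cl e = 0 → e = 0

omit hC hH in
lemma grH_top [hC : IsChow C] [hH : IsWeil H] [hS : IsStandard H] {l : ℤ} {a : H.A X}
    (ha : a ∈ H.gr X l) (hl : 2 * (X.dim : ℤ) < l) : a = 0 := by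
  refine eq_of_tr fun m b hb => ?_
  rw [zero_mul, map_zero]
  rcases lt_or_ge m 0 with hm | hm
  · rw [H.gr_neg X m hm] at hb
    rw [(Submodule.mem_bot _).1 hb, mul_zero, map_zero]
  · exact trMul_eq_zero ha hb (by omega)

/-- A correspondence is homologically trivial if it kills all homogeneous classes. -/
lemma cl_eq_zero {N : C.A (X.prod Y)} (h : ∀ (l : ℤ), ∀ c ∈ H.gr X l, H.act (H.cl N) c = 0) :
    H.cl N = 0 := by
  apply eq_zero_of_act H
  intro c
  have h2 : c ∈ ⨆ l, H.gr X l := by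
    rw [(H.isInternal X).submodule_iSup_eq_top]; trivial
  have h3 : ⨆ l, H.gr X l ≤ LinearMap.ker (H.actL (H.cl N)) :=
    iSup_le fun l c hc => LinearMap.mem_ker.2 (h l c hc)
  exact LinearMap.mem_ker.1 (h3 h2)

/-- The classes of the components of a Chow-Kunneth decomposition are unique. -/
lemma IsCK.cl_eq {π π' : ℕ → C.A (X.prod X)} (hπ : IsCK H X π) (hπ' : IsCK H X π') (j : ℕ) :
    H.cl (π j) = H.cl (π' j) := by
  rw [← sub_eq_zero, ← map_sub]
  refine cl_eq_zero fun l c hc => ?_
  rw [map_sub, H.act_sub, hπ.coh j l c hc, hπ'.coh j l c hc, sub_self]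

section rings

variable [hI : HasIso C]

/-- The ring structure on the correspondences of a Chow theory. -/
noncomputable local instance instE (C : TheoryData.{u, v, 0} 𝒱 ℚ) [IsChow C] [HasIso C]
    (X : 𝒱.Obj) : Ring (EndC C X) := endRing C X

/-- The ring of correspondences of degree zero. -/
noncomputable def E0 (C : TheoryData.{u, v, 0} 𝒱 ℚ) [IsChow C] [HasIso C] (X : 𝒱.Obj) :
    Subring (EndC C X) where
  carrier := {x | (x : C.A (X.prod X)) ∈ C.gr (X.prod X) X.dim}
  mul_mem' := fun {a b} ha hb => deg_comp0 (C := C) (X := X) (Γ := a) (Δ := b) ha hb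
  one_mem' := dg_mem (C := C) X
  add_mem' := fun {a b} ha hb => (C.gr (X.prod X) X.dim).add_mem (x := a) (y := b) ha hb
  zero_mem' := (C.gr (X.prod X) X.dim).zero_mem
  neg_mem' := fun {a} ha => (C.gr (X.prod X) X.dim).neg_mem (x := a) ha

/-- The underlying correspondence. -/
noncomputable def cr (x : E0 C X) : C.A (X.prod X) := (x : EndC C X)

lemma cr_mem (x : E0 C X) : C.Deg X.dim (cr x) := x.2

/-- The element of the ring attached to a correspondence of degree zero. -/
noncomputable def mkE (x : C.A (X.prod X)) (hx : C.Deg X.dim x) : E0 C X := ⟨x, hx⟩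

lemma cr_ext {x y : E0 C X} (h : cr x = cr y) : x = y := Subtype.ext h
lemma cr_mk (x : C.A (X.prod X)) (hx : C.Deg X.dim x) : cr (mkE x hx) = x := rfl
lemma cr_mul (x y : E0 C X) : cr (x * y) = C.comp (cr x) (cr y) := rfl
lemma cr_one : cr (1 : E0 C X) = dg C X := rfl
lemma cr_zero : cr (0 : E0 C X) = 0 := rfl

/-- The underlying correspondence, as an additive map. -/
noncomputable def crHom : E0 C X →+ C.A (X.prod X) where
  toFun := cr
  map_zero' := rfl
  map_add' := fun _ _ => rfl

lemma cr_sum {ι : Type*} (s : Finset ι) (f : ι → E0 C X) :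
    cr (∑ i ∈ s, f i) = ∑ i ∈ s, cr (f i) := map_sum crHom f s

/-- The ring structure on the cohomological correspondences. -/
noncomputable local instance instH (H : WeilTheoryData.{u, v, w} C K) [IsWeil H] (X : 𝒱.Obj) :
    Ring (EndC H.toTheoryData X) := endRing H.toTheoryData X

variable (H) in
/-- The cycle class map, as a homomorphism of rings of correspondences. -/
noncomputable def phi (X : 𝒱.Obj) : E0 C X →+* EndC H.toTheoryData X where
  toFun := fun x => (H.cl (cr x) : H.A (X.prod X))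
  map_one' := cl_dg H X
  map_mul' := fun x y => cl_comp H (cr x) (cr y)
  map_zero' := map_zero (H.cl (X := X.prod X))
  map_add' := fun x y => map_add (H.cl (X := X.prod X)) (cr x) (cr y)

lemma phi_apply (x : E0 C X) : phi H X x = (H.cl (cr x) : H.A (X.prod X)) := rfl

lemma phi_eq_zero_iff (x : E0 C X) : phi H X x = 0 ↔ H.cl (cr x) = 0 := Iff.rfl

/-- A Chow-Kunneth decomposition as a system of idempotents. -/
noncomputable def toE0 {π : ℕ → C.A (X.prod X)} (hπ : IsCK H X π) (j : ℕ) : E0 C X :=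
  mkE (π j) (hπ.deg j)

lemma toE0_val {π : ℕ → C.A (X.prod X)} (hπ : IsCK H X π) (j : ℕ) : cr (toE0 hπ j) = π j := rfl

lemma IsCK.isSys {π₀ π : ℕ → C.A (X.prod X)} (hπ₀ : IsCK H X π₀) (hπ : IsCK H X π) :
    IsSys (phi H X) (2 * X.dim + 1) (fun j => phi H X (toE0 hπ₀ j)) (toE0 hπ) where
  mul i j := by
    apply cr_ext
    rw [cr_mul, toE0_val, toE0_val]
    split_ifs with h
    · rw [h, toE0_val, hπ.idem]
    · rw [hπ.orth i j h, cr_zero]
  sum := by
    apply cr_ext
    rw [cr_sum, cr_one, ← hπ.sum]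
    rfl
  zero j hj := by
    apply cr_ext
    rw [toE0_val, hπ.vanish j (by omega), cr_zero]
  map j := hπ.cl_eq hπ₀ j

lemma isCK_of_isSys {π₀ : ℕ → C.A (X.prod X)} (hπ₀ : IsCK H X π₀) {p : ℕ → E0 C X}
    (hp : IsSys (phi H X) (2 * X.dim + 1) (fun j => phi H X (toE0 hπ₀ j)) p) :
    IsCK H X (fun j => cr (p j)) where
  deg j := cr_mem (p j)
  idem j := by rw [← cr_mul, hp.idem]
  orth i j hij := by rw [← cr_mul, hp.orth hij, cr_zero]
  sum := by rw [← cr_sum, hp.sum, cr_one]
  vanish j hj := by rw [hp.zero j (by omega), cr_zero]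
  coh j l a ha := by
    have h1 : H.cl (cr (p j)) = H.cl (π₀ j) := hp.map j
    rw [h1, hπ₀.coh j l a ha]

lemma triangular_iff {π : ℕ → C.A (X.prod X)} (hπ : IsCK H X π) :
    Triangular π ↔ Tri (toE0 hπ) := by
  constructor
  · intro h x b a hba
    apply cr_ext
    exact h (cr x) (cr_mem x) a b hba
  · intro h ν hν a b hba
    exact congrArg cr (h (mkE ν hν) b a hba)

lemma noPhantom_iff : NoPhantom H X ↔ NoPh (phi H X) := by
  constructor
  · intro h e he hφ
    apply cr_ext
    exact h (cr e) (cr_mem e) (congrArg cr he) hφ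
  · intro h e he hee hcl
    exact congrArg cr (h (mkE e he) (cr_ext hee) hcl)

/-- A correspondence of degree zero between different degrees is homologically trivial. -/
lemma cl_between {π π' : ℕ → C.A (X.prod X)} (hπ : IsCK H X π) (hπ' : IsCK H X π')
    {ν : C.A (X.prod X)} (hν : C.Deg X.dim ν) {a b : ℕ} (hab : b ≠ a) :
    H.cl (C.comp (C.comp (π b) ν) (π' a)) = 0 := by
  refine cl_eq_zero fun l c hc => ?_
  rw [cl_comp, cl_comp, H.act_comp, H.act_comp, hπ.coh b l c hc]
  split_ifs with hl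
  · have h4 := actH_mem H (e := 0) (Γ := ν) (by rw [add_zero]; exact hν) hc
    rw [hπ'.coh a _ _ h4, if_neg (by omega)]
  · rw [H.act_map_zero, H.act_map_zero]

lemma truncInd_iff {π₀ : ℕ → C.A (X.prod X)} (hπ₀ : IsCK H X π₀) : TruncInd H X ↔
    ∀ q q', IsSys (phi H X) (2 * X.dim + 1) (fun j => phi H X (toE0 hπ₀ j)) q →
      IsSys (phi H X) (2 * X.dim + 1) (fun j => phi H X (toE0 hπ₀ j)) q' → Compat q q' := by
  constructor
  · intro h q q' hq hq' b a hba
    apply cr_ext
    exact h _ _ (isCK_of_isSys hπ₀ hq) (isCK_of_isSys hπ₀ hq') a b hba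
  · intro h π π' hπ hπ' a b hba
    exact congrArg cr (h _ _ (hπ₀.isSys hπ) (hπ₀.isSys hπ') b a hba)

/-- Characterisation of the varieties for which the truncations are independent. -/
theorem truncInd_tfae [hS : IsStandard H] (hX : ∃ π : ℕ → C.A (X.prod X), IsCK H X π) :
    [TruncInd H X,
      (∀ π : ℕ → C.A (X.prod X), IsCK H X π → Triangular π) ∧ NoPhantom H X,
      (∃ π : ℕ → C.A (X.prod X), IsCK H X π ∧ Triangular π) ∧ NoPhantom H X].TFAE := by
  obtain ⟨π₀, hπ₀⟩ := hX
  rcases Nat.eq_zero_or_pos X.dim with hd | hd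
  · -- dimension zero: everything is true
    have h1 : ∀ π : ℕ → C.A (X.prod X), IsCK H X π → Triangular π := by
      intro π hπ ν _ a b hba
      rw [hπ.vanish a (by omega), comp_zero]
    have h2 : NoPhantom H X := by
      intro e he _ hcl
      refine hS.cl_inj _ e ?_ hcl
      rw [hd] at he
      exact_mod_cast he
    have h3 : TruncInd H X := by
      intro π π' hπ hπ' a b hba
      rw [hπ'.vanish a (by omega), comp_zero]
    tfae_have 1 → 2 := fun _ => ⟨h1, h2⟩
    tfae_have 2 → 3 := fun _ => ⟨⟨π₀, hπ₀, h1 _ hπ₀⟩, h2⟩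
    tfae_have 3 → 1 := fun _ => h3
    tfae_finish
  · have key := compat_tfae (by omega : 2 ≤ 2 * X.dim + 1) (hπ₀.isSys hπ₀)
      (fun x b a hba => by
        rw [← map_mul, ← map_mul]
        exact cl_between hπ₀ hπ₀ (cr_mem x) hba)
    tfae_have 1 → 2 := by
      intro h
      have h1 := (key.out 0 1).1 ((truncInd_iff hπ₀).1 h)
      refine ⟨fun π hπ => ?_, noPhantom_iff.2 h1.2⟩
      rw [triangular_iff hπ]
      exact h1.1 _ (hπ₀.isSys hπ)
    tfae_have 2 → 3 := fun h => ⟨⟨π₀, hπ₀, h.1 _ hπ₀⟩, h.2⟩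
    tfae_have 3 → 1 := by
      rintro ⟨⟨π, hπ, ht⟩, hph⟩
      rw [truncInd_iff hπ₀]
      refine (key.out 2 0).1 ?_
      exact ⟨⟨_, hπ₀.isSys hπ, (triangular_iff hπ).1 ht⟩, noPhantom_iff.1 hph⟩
    tfae_finish

/-! ### Retracts -/

/-- Phantoms of a retract. -/
lemma NoPhantom.retract (hY : NoPhantom H Y) (hXY : IsRetract C X Y) : NoPhantom H X := by
  obtain ⟨a, b, ha, hb, hab⟩ := hXY
  have ha0 : a ∈ C.gr (X.prod Y) (X.dim + 0) := by rw [add_zero]; exact ha
  have hb0 : b ∈ C.gr (Y.prod X) (Y.dim + 0) := by rw [add_zero]; exact hb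
  intro e he hee hcl
  have he0 : e ∈ C.gr (X.prod X) (X.dim + 0) := by rw [add_zero]; exact he
  have h1 : C.comp (C.comp b e) a = 0 := by
    apply hY
    · have := deg_comp (deg_comp hb0 he0) ha0
      rw [add_zero, add_zero, add_zero] at this
      exact this
    · calc C.comp (C.comp (C.comp b e) a) (C.comp (C.comp b e) a) =
          C.comp (C.comp b (C.comp e (C.comp (C.comp a b) e))) a := by simp only [comp_assoc]
        _ = _ := by rw [hab, dg_comp, hee]
    · rw [cl_comp, cl_comp, hcl, comp_zero, zero_comp]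
  calc e = C.comp (C.comp (C.comp a b) e) (C.comp a b) := by rw [hab, dg_comp, comp_dg]
    _ = C.comp (C.comp a (C.comp (C.comp b e) a)) b := by simp only [comp_assoc]
    _ = 0 := by rw [h1, comp_zero, zero_comp]

/-- Retracts of a variety with independent truncations. -/
theorem TruncInd.retract [hS : IsStandard H] (hY : TruncInd H Y)
    (hYck : ∃ π : ℕ → C.A (Y.prod Y), IsCK H Y π) (hXY : IsRetract C X Y) :
    (∃ ρ : ℕ → C.A (X.prod X), IsCK H X ρ) ∧ TruncInd H X := by
  have hY2 := ((truncInd_tfae hYck).out 0 1).1 hY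
  have hXph : NoPhantom H X := hY2.2.retract hXY
  obtain ⟨π, hπ⟩ := hYck
  have htri : Triangular π := hY2.1 π hπ
  obtain ⟨a, b, ha, hb, hab⟩ := hXY
  have ha0 : a ∈ C.gr (X.prod Y) (X.dim + 0) := by rw [add_zero]; exact ha
  have hb0 : b ∈ C.gr (Y.prod X) (Y.dim + 0) := by rw [add_zero]; exact hb
  have hpdeg : ∀ j, C.Deg X.dim (C.comp (C.comp a (π j)) b) := by
    intro j
    have h1 : π j ∈ C.gr (Y.prod Y) (Y.dim + 0) := by rw [add_zero]; exact hπ.deg j
    have h2 := deg_comp (deg_comp ha0 h1) hb0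
    rw [add_zero, add_zero, add_zero] at h2
    exact h2
  let p : ℕ → E0 C X := fun j => mkE (C.comp (C.comp a (π j)) b) (hpdeg j)
  have hptri : ∀ (x : E0 C X) (i j : ℕ), i < j → p i * x * p j = 0 := by
    intro x i j hij
    apply cr_ext
    have h1 : C.Deg Y.dim (C.comp (C.comp b (cr x)) a) := by
      have hx0 : (cr x) ∈ C.gr (X.prod X) (X.dim + 0) := by rw [add_zero]; exact (cr_mem x)
      have h2 := deg_comp (deg_comp hb0 hx0) ha0
      rw [add_zero, add_zero, add_zero] at h2
      exact h2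
    calc cr (p i * x * p j) = C.comp (C.comp (C.comp (C.comp a (π i)) b) (cr x))
          (C.comp (C.comp a (π j)) b) := rfl
      _ = C.comp (C.comp a (C.comp (C.comp (π i) (C.comp (C.comp b (cr x)) a)) (π j))) b := by
        simp only [comp_assoc]
      _ = 0 := by rw [htri _ h1 j i hij, comp_zero, zero_comp]
  have hptri' : ∀ i j, i < j → p i * p j = 0 := by
    intro i j hij
    have := hptri 1 i j hij
    rwa [mul_one] at this
  have hsum : ps p (2 * Y.dim + 1) = 1 := by
    apply cr_ext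
    rw [ps, cr_sum]
    change ∑ j ∈ Finset.range (2 * Y.dim + 1), C.comp (C.comp a (π j)) b = dg C X
    rw [← sum_comp, ← comp_sum, hπ.sum, comp_dg, hab]
  have hpcoh : ∀ (j : ℕ) (l : ℤ) (c : H.A X), c ∈ H.gr X l →
      H.act (H.cl (cr (p j))) c = if l = j then c else 0 := by
    intro j l c hc
    change H.act (H.cl (C.comp (C.comp a (π j)) b)) c = _
    have h1 := actH_mem H ha0 hc
    rw [mul_zero, add_zero] at h1
    have h2 : H.act (H.cl b) (H.act (H.cl a) c) = c := by
      rw [← H.act_comp, ← cl_comp, hab, cl_dg, act_dg]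
    rw [cl_comp, cl_comp, H.act_comp, H.act_comp, hπ.coh j l _ h1]
    split_ifs
    · exact h2
    · exact H.act_map_zero _
  have hφ : ∀ i j, i ≠ j → phi H X (p i) * phi H X (p j) = 0 := by
    intro i j hij
    rw [← map_mul]
    change H.cl (C.comp (cr (p i)) (cr (p j))) = 0
    refine cl_eq_zero fun l c hc => ?_
    rw [cl_comp, H.act_comp, hpcoh i l c hc]
    split_ifs with h1
    · rw [hpcoh j l c hc, if_neg (by omega)]
    · exact H.act_map_zero _
  have hpz : ∀ j, 2 * Y.dim + 1 ≤ j → p j = 0 := by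
    intro j hj
    apply cr_ext
    change C.comp (C.comp a (π j)) b = 0
    rw [hπ.vanish j (by omega), comp_zero, zero_comp]
  have hq : IsSys (phi H X) (2 * Y.dim + 1) (fun j => phi H X (p j)) (qs p (2 * Y.dim + 1)) :=
    isSys_qs hsum hptri' (fun _ _ => rfl) (fun j hj => by
      change phi H X (p j) = 0
      rw [hpz j hj, map_zero]) hφ
  have hqt : Tri (qs p (2 * Y.dim + 1)) := tri_qs hsum hptri
  set q : ℕ → E0 C X := qs p (2 * Y.dim + 1) with hqdef
  have hqz : ∀ j, 2 * X.dim < j → q j = 0 := by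
    intro j hj
    refine noPhantom_iff.1 hXph _ (hq.idem j) ?_
    rw [hq.map]
    change H.cl (cr (p j)) = 0
    refine cl_eq_zero fun l c hc => ?_
    rw [hpcoh j l c hc]
    split_ifs with h
    · exact grH_top hc (by omega)
    · rfl
  have hck : IsCK H X (fun j => cr (q j)) := by
    refine ⟨fun j => cr_mem (q j), fun j => ?_, fun i j hij => ?_, ?_, fun j hj => ?_,
      fun j l c hc => ?_⟩
    · rw [← cr_mul, hq.idem]
    · rw [← cr_mul, hq.orth hij, cr_zero]
    · have h1 : ∑ j ∈ Finset.range (2 * X.dim + 1), q j = 1 := by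
        rw [← hq.sum]
        rcases le_total (2 * X.dim + 1) (2 * Y.dim + 1) with h2 | h2
        · refine Finset.sum_subset (Finset.range_mono h2) fun j _ hj => hqz j ?_
          rw [Finset.mem_range] at hj
          omega
        · refine (Finset.sum_subset (Finset.range_mono h2) fun j _ hj => hq.zero j ?_).symm
          rw [Finset.mem_range] at hj
          omega
      rw [← cr_sum, h1, cr_one]
    · rw [hqz j hj, cr_zero]
    · have h1 : H.cl (cr (q j)) = H.cl (cr (p j)) := hq.map j
      rw [h1]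
      exact hpcoh j l c hc
  have hres : ∃ ρ : ℕ → C.A (X.prod X), IsCK H X ρ ∧ Triangular ρ :=
    ⟨_, hck, (triangular_iff hck).2 hqt⟩
  refine ⟨⟨_, hck⟩, ((truncInd_tfae ⟨_, hck⟩).out 2 0).1 ?_⟩
  exact ⟨hres, hXph⟩

end rings

end Pool.Agent.W550.Murre
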