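import Pool.Agent.W550.Murre.Defs

/-!
# Chow-Kunneth decompositions: conjugates, duals, products
-/

open CategoryTheory AlgebraicGeometry

universe u v w

namespace Pool.Agent.W550.Murre

open Pool.Agent.H914 Pool.Agent.H914.VarClass Pool.Agent.H914.VarClass.Obj Pool.Agent.W492.BB
  Pool.Agent.W550.Corr

variable {k : Type u} [Field k] {𝒱 : VarClass k} {C : TheoryData.{u, v, 0} 𝒱 ℚ} {K : Type w}
  [Field K] {H : WeilTheoryData.{u, v, w} C K}

lemma hasIso_of_std (H : WeilTheoryData.{u, v, w} C K) (hS : IsStandard H) : HasIso C where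
  push_one := hS.push_one

section ring

/-- The ring of self-correspondences (of all degrees), with composition as multiplication. -/
def EndC {F : Type w} [Field F] (T : TheoryData.{u, v, w} 𝒱 F) (X : 𝒱.Obj) : Type v :=
  T.A (X.prod X)

noncomputable instance {F : Type w} [Field F] (T : TheoryData.{u, v, w} 𝒱 F) (X : 𝒱.Obj) :
    AddCommGroup (EndC T X) := inferInstanceAs (AddCommGroup (T.A (X.prod X)))

/-- The ring structure. -/
@[instance_reducible]
noncomputable def endRing {F : Type w} [Field F] (T : TheoryData.{u, v, w} 𝒱 F) {δ : ℤ}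
    [hT : IsTheory T δ] [hI : HasIso T] (X : 𝒱.Obj) : Ring (EndC T X) :=
  { (inferInstance : AddCommGroup (EndC T X)) with
    mul := fun a b => T.comp (X := X) (Y := X) (Z := X) a b
    one := dg T X
    mul_assoc := fun a b c => comp_assoc T a b c
    one_mul := fun a => dg_comp T a
    mul_one := fun a => comp_dg T a
    left_distrib := fun a b c => comp_add T a b c
    right_distrib := fun a b c => add_comp T a b c
    zero_mul := fun a => zero_comp T a
    mul_zero := fun a => comp_zero T a }

end ring

variable [hC : IsChow C] [hH : IsWeil H] [hI : HasIso C] {X Y Z : 𝒱.Obj}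

namespace IsCK

variable {π : ℕ → C.A (X.prod X)} {π' : ℕ → C.A (Y.prod Y)}

lemma eq_zero_of_top (hπ : IsCK H X π) {l : ℤ} {a : H.A X} (ha : a ∈ H.gr X l)
    (hl : 2 * (X.dim : ℤ) < l) : a = 0 := by
  have h1 := act_dg H.toTheoryData a
  rw [← cl_dg, ← hπ.sum, map_sum, act_sum] at h1
  rw [← h1]
  refine Finset.sum_eq_zero fun j hj => ?_
  rw [hπ.coh j l a ha, if_neg]
  rw [Finset.mem_range] at hj
  omega

lemma orthR (hπ : IsCK H X π) {i j : ℕ} (hij : i ≠ j) (Γ : C.A (X.prod Y)) :
    C.comp (π i) (C.comp (π j) Γ) = 0 := by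
  rw [← comp_assoc, hπ.orth i j hij, zero_comp]

lemma act_orth (hπ : IsCK H X π) {i j : ℕ} (hij : i ≠ j) (x : C.A X) :
    C.act (π j) (C.act (π i) x) = 0 := by
  rw [← C.act_comp, hπ.orth i j hij, C.act_zero]

lemma act_idem (hπ : IsCK H X π) (j : ℕ) (x : C.A X) :
    C.act (π j) (C.act (π j) x) = C.act (π j) x := by
  rw [← C.act_comp, hπ.idem]

/-- The action of a partial sum on a component. -/
lemma ckSum_act (π : ℕ → C.A (X.prod X)) (m : ℤ) (x : C.A X) : C.act (ckSum π m) x =
    ∑ j ∈ (Finset.range (2 * X.dim + 1)).filter (fun j : ℕ => (j : ℤ) ≤ m), C.act (π j) x :=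
  act_sum C _ _ _

omit hI in
lemma total (hπ : IsCK H X π) (x : C.A X) :
    x = ∑ j ∈ Finset.range (2 * X.dim + 1), C.act (π j) x := by
  rw [← act_sum, hπ.sum, act_dg]

/-- Membership in the filtration: the components with `j > 2i - n` vanish. -/
lemma mem_ckF (hπ : IsCK H X π) {i : ℕ} {n : ℤ} {x : C.A X} :
    x ∈ ckF π i n ↔ x ∈ C.gr X i ∧ ∀ j : ℕ, 2 * (i : ℤ) - n < j → C.act (π j) x = 0 := by
  constructor
  · rintro ⟨y, hy, rfl⟩
    refine ⟨?_, fun j hj => ?_⟩
    · rw [TheoryData.actL_apply, ckSum_act]
      refine Submodule.sum_mem _ fun j _ => ?_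
      have h1 := act_mem (e := 0) (by rw [add_zero]; exact hπ.deg j) hy
      rwa [add_zero] at h1
    · rw [TheoryData.actL_apply, ckSum_act, act_map_sum]
      refine Finset.sum_eq_zero fun l hl => ?_
      rw [Finset.mem_filter] at hl
      exact hπ.act_orth (by omega) y
  · rintro ⟨hx, hj⟩
    refine ⟨x, hx, ?_⟩
    rw [TheoryData.actL_apply, ckSum_act]
    conv_rhs => rw [hπ.total x]
    refine Finset.sum_subset (Finset.filter_subset _ _) fun j h1 h2 => ?_
    refine hj j ?_
    by_contra h3
    exact h2 (Finset.mem_filter.2 ⟨h1, by omega⟩)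

/-- Conjugation by `1 + N`, `N` homologically trivial with square zero. -/
lemma conj (hπ : IsCK H X π) {N : C.A (X.prod X)} (hN : N ∈ C.gr (X.prod X) X.dim)
    (hN0 : H.cl N = 0) (hN2 : C.comp N N = 0) :
    IsCK H X (fun j => C.comp (C.comp (dg C X - N) (π j)) (dg C X + N)) := by
  let _ := endRing C X
  let n : EndC C X := N
  let p : ℕ → EndC C X := π
  have hn : n * n = 0 := hN2
  have hp : ∀ j, p j * p j = p j := hπ.idem
  have hpo : ∀ i j, i ≠ j → p i * p j = 0 := hπ.orth
  have hu : (1 + n) * (1 - n) = 1 := by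
    have : (1 + n) * (1 - n) = 1 - n * n := by noncomm_ring
    rw [this, hn, sub_zero]
  have hu' : (1 - n) * (1 + n) = 1 := by
    have : (1 - n) * (1 + n) = 1 - n * n := by noncomm_ring
    rw [this, hn, sub_zero]
  have hdef : ∀ j, C.comp (C.comp (dg C X - N) (π j)) (dg C X + N) =
      ((1 - n) * p j * (1 + n) : EndC C X) := fun j => rfl
  refine ⟨fun j => ?_, fun j => ?_, fun i j hij => ?_, ?_, fun j hj => ?_, fun j l a ha => ?_⟩
  · have hdg : dg C X ∈ C.gr (X.prod X) X.dim := by
      have h := C.push_mem (Obj.lift (𝟙 X) (𝟙 X)) (C.one_mem X)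
      have e1 : (0 : ℤ) + 1 * (((X.prod X).dim : ℤ) - (X.dim : ℤ)) = X.dim := by
        simp only [dim_prod]; push_cast; ring
      rwa [e1] at h
    have hcomp : ∀ {a b : C.A (X.prod X)}, a ∈ C.gr (X.prod X) X.dim →
        b ∈ C.gr (X.prod X) X.dim → C.comp a b ∈ C.gr (X.prod X) X.dim := by
      intro a b ha hb
      have h := C.push_mem (t13 X X X) (C.mul_mem (C.pull_mem (t23 X X X) hb)
        (C.pull_mem (fst (X.prod X) X) ha))
      have e1 : (X.dim : ℤ) + X.dim +
          1 * (((X.prod X).dim : ℤ) - (((X.prod X).prod X).dim : ℤ)) = X.dim := by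
        simp only [dim_prod]; push_cast; ring
      rwa [e1] at h
    exact hcomp (hcomp (Submodule.sub_mem _ hdg hN) (hπ.deg j)) (Submodule.add_mem _ hdg hN)
  · rw [hdef]
    change (1 - n) * p j * (1 + n) * ((1 - n) * p j * (1 + n)) = (1 - n) * p j * (1 + n)
    calc (1 - n) * p j * (1 + n) * ((1 - n) * p j * (1 + n)) =
        (1 - n) * (p j * ((1 + n) * (1 - n)) * p j) * (1 + n) := by simp only [mul_assoc]
      _ = _ := by rw [hu, mul_one, hp]
  · beta_reduce
    rw [hdef, hdef]
    change (1 - n) * p i * (1 + n) * ((1 - n) * p j * (1 + n)) = 0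
    calc (1 - n) * p i * (1 + n) * ((1 - n) * p j * (1 + n)) =
        (1 - n) * (p i * ((1 + n) * (1 - n)) * p j) * (1 + n) := by simp only [mul_assoc]
      _ = _ := by rw [hu, mul_one, hpo i j hij, mul_zero, zero_mul]
  · rw [← sum_comp, ← comp_sum, hπ.sum]
    change (1 - n) * 1 * (1 + n) = 1
    rw [mul_one, hu']
  · beta_reduce
    rw [hπ.vanish j hj, comp_zero, zero_comp]
  · have h1 : H.cl (dg C X - N) = dg H.toTheoryData X := by rw [map_sub, hN0, sub_zero, cl_dg]
    have h2 : H.cl (dg C X + N) = dg H.toTheoryData X := by rw [map_add, hN0, add_zero, cl_dg]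
    rw [cl_comp, cl_comp, h1, h2, dg_comp, H.act_comp, act_dg]
    exact hπ.coh j l a ha

end IsCK

section dual

variable [hS : IsStandard H] {π : ℕ → C.A (X.prod X)}

omit hI in
lemma trMul_eq_zero {l m : ℤ} {a b : H.A X} (ha : a ∈ H.gr X l) (hb : b ∈ H.gr X m)
    (h : l + m ≠ 2 * X.dim) : H.tr X (a * b) = 0 :=
  hS.tr_eq_zero X _ _ h (H.mul_mem ha hb)

omit hI in
/-- Nondegeneracy tested on homogeneous elements. -/
lemma eq_of_tr {c c' : H.A X}
    (h : ∀ (m : ℤ) (a : H.A X), a ∈ H.gr X m → H.tr X (c * a) = H.tr X (c' * a)) : c = c' := by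
  rw [← sub_eq_zero]
  apply H.nondeg
  intro b
  have h2 : b ∈ ⨆ i, H.gr X i := by
    rw [(H.isInternal X).submodule_iSup_eq_top]; trivial
  have h3 : ⨆ i, H.gr X i ≤ LinearMap.ker ((H.tr X).comp (LinearMap.mulLeft K (c - c'))) := by
    refine iSup_le fun i x hx => LinearMap.mem_ker.2 ?_
    change H.tr X ((c - c') * x) = 0
    rw [sub_mul, map_sub, h i x hx, sub_self]
  exact LinearMap.mem_ker.1 (h3 h2)

/-- The dual decomposition. -/
noncomputable def dualCK (π : ℕ → C.A (X.prod X)) (s : ℕ) : C.A (X.prod X) :=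
  if s ≤ 2 * X.dim then tp C (π (2 * X.dim - s)) else 0

lemma IsCK.dual (hπ : IsCK H X π) : IsCK H X (dualCK π) where
  deg s := by
    rw [dualCK]
    split_ifs
    · exact C.pull_mem _ (hπ.deg _)
    · exact Submodule.zero_mem _
  idem s := by
    rw [dualCK]
    split_ifs
    · rw [← tp_comp, hπ.idem]
    · rw [comp_zero]
  orth s t hst := by
    rw [dualCK, dualCK]
    split_ifs
    · rw [← tp_comp, hπ.orth _ _ (by omega), tp, map_zero]
    · rw [comp_zero]
    · rw [zero_comp]
    · rw [comp_zero]
  sum := by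
    have h1 : ∑ j ∈ Finset.range (2 * X.dim + 1), dualCK π j =
        ∑ j ∈ Finset.range (2 * X.dim + 1), tp C (π (2 * X.dim + 1 - 1 - j)) := by
      refine Finset.sum_congr rfl fun j hj => ?_
      rw [Finset.mem_range] at hj
      rw [dualCK, if_pos (by omega)]
      rfl
    rw [h1, Finset.sum_range_reflect (fun j => tp C (π j))]
    have h2 : ∑ j ∈ Finset.range (2 * X.dim + 1), tp C (π j) =
        tp C (∑ j ∈ Finset.range (2 * X.dim + 1), π j) := (map_sum (C.pull (sw X X)) _ _).symm
    rw [h2, hπ.sum, tp_dg]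
  vanish s hs := by rw [dualCK, if_neg (by omega)]
  coh s l b hb := by
    rw [dualCK]
    split_ifs with h1 h2 h2
    · -- `s ≤ 2 dim`, `l = s`
      refine eq_of_tr fun m a ha => ?_
      rw [tr_tp, hπ.coh _ m a ha]
      split_ifs with h3
      · rfl
      · rw [mul_zero, map_zero, trMul_eq_zero hb ha]
        omega
    · refine eq_of_tr fun m a ha => ?_
      rw [tr_tp, hπ.coh _ m a ha, zero_mul, map_zero]
      split_ifs with h3
      · exact trMul_eq_zero hb ha (by omega)
      · rw [mul_zero, map_zero]
    · rw [map_zero, H.act_zero]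
      exact (hπ.eq_zero_of_top hb (by omega)).symm
    · rw [map_zero, H.act_zero]

end dual

section prod

variable {π : ℕ → C.A (X.prod X)} {π' : ℕ → C.A (Y.prod Y)}

/-- The product decomposition. -/
noncomputable def prodCK (π : ℕ → C.A (X.prod X)) (π' : ℕ → C.A (Y.prod Y)) (l : ℕ) :
    C.A ((X.prod Y).prod (X.prod Y)) :=
  ∑ s ∈ Finset.range (2 * X.dim + 1), ∑ t ∈ Finset.range (2 * Y.dim + 1),
    if s + t = l then tens C (π s) (π' t) else 0

lemma tens_orth (hπ : IsCK H X π) (hπ' : IsCK H Y π') {s t s' t' : ℕ} (h : s ≠ s' ∨ t ≠ t') :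
    C.comp (tens C (π s) (π' t)) (tens C (π s') (π' t')) = 0 := by
  rw [comp_tens]
  rcases h with h | h
  · rw [hπ.orth _ _ h, tens, map_zero, zero_mul]
  · rw [hπ'.orth _ _ h, tens, map_zero, mul_zero]

lemma tens_idem (hπ : IsCK H X π) (hπ' : IsCK H Y π') (s t : ℕ) :
    C.comp (tens C (π s) (π' t)) (tens C (π s) (π' t)) = tens C (π s) (π' t) := by
  rw [comp_tens, hπ.idem, hπ'.idem]

lemma prodCK_comp (hπ : IsCK H X π) (hπ' : IsCK H Y π') (l m : ℕ) :
    C.comp (prodCK π π' l) (prodCK π π' m) = if l = m then prodCK π π' l else 0 := by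
  have key : ∀ s ∈ Finset.range (2 * X.dim + 1), ∀ t ∈ Finset.range (2 * Y.dim + 1),
      C.comp (if s + t = l then tens C (π s) (π' t) else 0) (prodCK π π' m) =
      if l = m then (if s + t = l then tens C (π s) (π' t) else 0) else 0 := by
    intro s hs t ht
    split_ifs with h1 h2 h2
    · rw [prodCK, comp_sum, Finset.sum_eq_single s, comp_sum, Finset.sum_eq_single t,
        if_pos (by omega), tens_idem hπ hπ']
      · intro t' _ ht'
        split_ifs
        · exact tens_orth hπ hπ' (Or.inr (Ne.symm ht'))
        · exact comp_zero C _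
      · intro h; exact absurd ht h
      · intro s' _ hs'
        rw [comp_sum]
        refine Finset.sum_eq_zero fun t' _ => ?_
        split_ifs
        · exact tens_orth hπ hπ' (Or.inl (Ne.symm hs'))
        · exact comp_zero C _
      · intro h; exact absurd hs h
    · rw [prodCK, comp_sum]
      refine Finset.sum_eq_zero fun s' _ => ?_
      rw [comp_sum]
      refine Finset.sum_eq_zero fun t' _ => ?_
      split_ifs
      · exact tens_orth hπ hπ' (by omega)
      · exact comp_zero C _
    · exact zero_comp C _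
    · exact zero_comp C _
  conv_lhs => rw [show prodCK π π' l = ∑ s ∈ Finset.range (2 * X.dim + 1),
    ∑ t ∈ Finset.range (2 * Y.dim + 1), if s + t = l then tens C (π s) (π' t) else 0 from rfl]
  rw [sum_comp]
  have h2 : ∀ s ∈ Finset.range (2 * X.dim + 1),
      C.comp (∑ t ∈ Finset.range (2 * Y.dim + 1), if s + t = l then tens C (π s) (π' t) else 0)
        (prodCK π π' m) = ∑ t ∈ Finset.range (2 * Y.dim + 1),
        if l = m then (if s + t = l then tens C (π s) (π' t) else 0) else 0 := by
    intro s hs
    rw [sum_comp]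
    exact Finset.sum_congr rfl fun t ht => key s hs t ht
  rw [Finset.sum_congr rfl h2]
  split_ifs with h
  · rfl
  · simp

lemma IsCK.prod (hπ : IsCK H X π) (hπ' : IsCK H Y π') :
    IsCK H (X.prod Y) (prodCK π π') where
  deg l := by
    refine Submodule.sum_mem _ fun s _ => Submodule.sum_mem _ fun t _ => ?_
    split_ifs
    · have h := C.mul_mem (C.pull_mem (prodMap (fst X Y) (fst X Y)) (hπ.deg s))
        (C.pull_mem (prodMap (snd X Y) (snd X Y)) (hπ'.deg t))
      rwa [show (X.dim : ℤ) + Y.dim = (X.prod Y).dim by simp only [dim_prod]; push_cast; ring] at h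
    · exact Submodule.zero_mem _
  idem l := by rw [prodCK_comp hπ hπ', if_pos rfl]
  orth l m hlm := by rw [prodCK_comp hπ hπ', if_neg hlm]
  sum := by
    have h1 : ∑ l ∈ Finset.range (2 * (X.prod Y).dim + 1), prodCK π π' l =
        ∑ s ∈ Finset.range (2 * X.dim + 1), ∑ t ∈ Finset.range (2 * Y.dim + 1),
          tens C (π s) (π' t) := by
      simp only [prodCK]
      rw [Finset.sum_comm]
      refine Finset.sum_congr rfl fun s hs => ?_
      rw [Finset.sum_comm]
      refine Finset.sum_congr rfl fun t ht => ?_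
      rw [Finset.sum_ite_eq, if_pos]
      rw [Finset.mem_range] at hs ht ⊢
      rw [dim_prod]
      omega
    have h2 : ∀ s, ∑ t ∈ Finset.range (2 * Y.dim + 1), tens C (π s) (π' t) =
        tens C (π s) (dg C Y) := by
      intro s
      rw [← hπ'.sum]
      simp only [tens, map_sum, Finset.mul_sum]
    have h3 : ∑ s ∈ Finset.range (2 * X.dim + 1), tens C (π s) (dg C Y) =
        tens C (dg C X) (dg C Y) := by
      rw [← hπ.sum]
      simp only [tens, map_sum, Finset.sum_mul]
    rw [h1, Finset.sum_congr rfl fun s _ => h2 s, h3, tens_dg]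
  vanish l hl := by
    rw [dim_prod] at hl
    refine Finset.sum_eq_zero fun s hs => Finset.sum_eq_zero fun t ht => ?_
    rw [Finset.mem_range] at hs ht
    rw [if_neg (by omega)]
  coh l m c hc := by
    have key : ∀ c ∈ H.gr (X.prod Y) m, H.act (H.cl (prodCK π π' l)) c =
        (if m = l then (1 : K) else 0) • c := by
      have h1 : H.gr (X.prod Y) m ≤ LinearMap.ker (H.actL (H.cl (prodCK π π' l)) -
          (if m = l then (1 : K) else 0) • LinearMap.id) := by
        refine (H.kunneth X Y m).trans (Submodule.span_le.2 ?_)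
        rintro _ ⟨p, a, b, ha, hb, rfl⟩
        rw [SetLike.mem_coe, LinearMap.mem_ker, LinearMap.sub_apply, sub_eq_zero,
          LinearMap.smul_apply, LinearMap.id_apply]
        change H.act (H.cl (prodCK π π' l)) (H.ext a b) = _ • H.ext a b
        rw [prodCK, map_sum, act_sum]
        have h2 : ∀ s ∈ Finset.range (2 * X.dim + 1),
            H.act (H.cl (∑ t ∈ Finset.range (2 * Y.dim + 1),
              if s + t = l then tens C (π s) (π' t) else 0)) (H.ext a b) =
            ∑ t ∈ Finset.range (2 * Y.dim + 1), if s + t = l then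
              (if p = s ∧ m - p = t then H.ext a b else 0) else 0 := by
          intro s _
          rw [map_sum, act_sum]
          refine Finset.sum_congr rfl fun t _ => ?_
          split_ifs with h3 h4 h4
          · rw [actH_tens, hπ.coh s p a ha, hπ'.coh t (m - p) b hb, if_pos h4.1, if_pos h4.2]
          · rw [actH_tens, hπ.coh s p a ha, hπ'.coh t (m - p) b hb]
            by_cases h5 : p = s
            · rw [if_neg (fun h6 => h4 ⟨h5, h6⟩), H.ext_zero_right]
            · rw [if_neg h5, H.ext_zero_left]
          · rw [map_zero, H.act_zero]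
        rw [Finset.sum_congr rfl h2]
        by_cases hab : H.ext a b = 0
        · rw [hab]
          simp
        · have hp : 0 ≤ p ∧ p < 2 * X.dim + 1 := by
            constructor
            · by_contra h
              rw [H.gr_neg X p (by omega)] at ha
              rw [(Submodule.mem_bot _).1 ha, H.ext_zero_left] at hab
              exact hab rfl
            · by_contra h
              rw [hπ.eq_zero_of_top ha (by omega), H.ext_zero_left] at hab
              exact hab rfl
          have hq : 0 ≤ m - p ∧ m - p < 2 * Y.dim + 1 := by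
            constructor
            · by_contra h
              rw [H.gr_neg Y (m - p) (by omega)] at hb
              rw [(Submodule.mem_bot _).1 hb, H.ext_zero_right] at hab
              exact hab rfl
            · by_contra h
              rw [hπ'.eq_zero_of_top hb (by omega), H.ext_zero_right] at hab
              exact hab rfl
          obtain ⟨s, rfl⟩ := Int.eq_ofNat_of_zero_le hp.1
          obtain ⟨t, ht⟩ := Int.eq_ofNat_of_zero_le hq.1
          rw [Finset.sum_eq_single s, Finset.sum_eq_single t]
          · by_cases hst : s + t = l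
            · rw [if_pos hst, if_pos ⟨rfl, ht⟩, if_pos (by omega), one_smul]
            · rw [if_neg hst, if_neg (by omega), zero_smul]
          · intro t' _ ht'
            split_ifs with h5 h6
            · exact absurd (by omega : t' = t) ht'
            · rfl
            · rfl
          · intro h
            exact absurd (Finset.mem_range.2 (by omega)) h
          · intro s' _ hs'
            refine Finset.sum_eq_zero fun t' _ => ?_
            split_ifs with h5 h6
            · exact absurd (by omega : s' = s) hs'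
            · rfl
            · rfl
          · intro h
            exact absurd (Finset.mem_range.2 (by omega)) h
      intro c hc
      have := LinearMap.mem_ker.1 (h1 hc)
      rw [LinearMap.sub_apply, sub_eq_zero] at this
      exact this
    rw [key c hc]
    split_ifs
    · rw [one_smul]
    · rw [zero_smul]

end prod

end Pool.Agent.W550.Murre
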