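import Pool.Agent.W550.Murre.Defs

/-!
# Murre's conjecture (D): definitions
-/

open CategoryTheory AlgebraicGeometry

universe u v w

namespace Pool.Agent.W550.Murre

open Pool.Agent.H914 Pool.Agent.H914.VarClass Pool.Agent.H914.VarClass.Obj Pool.Agent.W492.BB
  Pool.Agent.W550.Corr

variable {k : Type u} [Field k] {𝒱 : VarClass k} {C : TheoryData.{u, v, 0} 𝒱 ℚ} {K : Type w}
  [Field K] (H : WeilTheoryData.{u, v, w} C K)

/-- `X` has a Chow-Kunneth decomposition. -/
def HasDec (X : 𝒱.Obj) : Prop := ∃ π : ℕ → C.A (X.prod X), IsCK H X π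

/-- Murre's (D) for the decomposition `π` of `X` in codimension `i`: `F^1 CH^i(X)` is the subspace
of homologically trivial classes. -/
def DFor {X : 𝒱.Obj} (π : ℕ → C.A (X.prod X)) (i : ℕ) : Prop :=
  ∀ x : C.A X, C.Deg i x → (x ∈ ckF π i 1 ↔ H.cl x = 0)

/-- `F^0 CH^i(X) = CH^i(X)` for the decomposition `π` and all `i`. -/
def FZero {X : 𝒱.Obj} (π : ℕ → C.A (X.prod X)) : Prop := ∀ i : ℕ, ckF π i 0 = C.gr X i

/-- Homologically trivial correspondences `ν` of degree zero from `X` to `X` are strictly
triangular with respect to `π`: the component of `ν` from `(X, π b)` to `(X, π a)` is zero for all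
`a ≥ b`. -/
def Strict {X : 𝒱.Obj} (π : ℕ → C.A (X.prod X)) : Prop :=
  ∀ ν : C.A (X.prod X), C.Deg X.dim ν → H.cl ν = 0 → ∀ a b : ℕ, b ≤ a →
    C.comp (C.comp (π b) ν) (π a) = 0

/-- The transpose of a correspondence. -/
noncomputable def tpose {X : 𝒱.Obj} (Γ : C.A (X.prod X)) : C.A (X.prod X) :=
  C.up (Obj.lift (snd X X) (fst X X)) Γ

/-- The external product of two correspondences. -/
noncomputable def outer {X : 𝒱.Obj} (Γ Δ : C.A (X.prod X)) :
    C.A ((X.prod X).prod (X.prod X)) :=
  C.mul (C.up (prodMap (fst X X) (fst X X)) Γ) (C.up (prodMap (snd X X) (snd X X)) Δ)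

/-- The Chow-Kunneth decomposition of `X × X` which is the product of the dual decomposition
`π (2d - s)^t`, `s = 0, ..., 2d`, of `X` and of the decomposition `π` of `X`. -/
noncomputable def squareDec {X : 𝒱.Obj} (π : ℕ → C.A (X.prod X)) (l : ℕ) :
    C.A ((X.prod X).prod (X.prod X)) :=
  ∑ s ∈ Finset.range (2 * X.dim + 1), ∑ t ∈ Finset.range (2 * X.dim + 1),
    if s + t = l then outer (tpose (π (2 * X.dim - s))) (π t) else 0

/-- `π` is a decomposition of `X` such that (D) holds for the product decomposition of `X × X` in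
codimension `dim X`. -/
def DSquare {X : 𝒱.Obj} (π : ℕ → C.A (X.prod X)) : Prop :=
  ∀ x : C.A (X.prod X), C.Deg X.dim x → H.cl x = 0 → x ∈ ckF (squareDec π) X.dim 1

/-- All conjectured properties of decompositions of `X`: there is one, and for each one (D) holds
in all codimensions, `F^0 CH^i(X) = CH^i(X)`, and homologically trivial correspondences are
strictly triangular; and all decompositions induce the same filtrations. -/
structure Good (X : 𝒱.Obj) : Prop where
  hasDec : HasDec H X
  d : ∀ π : ℕ → C.A (X.prod X), IsCK H X π → ∀ i : ℕ, DFor H π i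
  fzero : ∀ π : ℕ → C.A (X.prod X), IsCK H X π → FZero π
  strict : ∀ π : ℕ → C.A (X.prod X), IsCK H X π → Strict H π
  indep : Independent H X

/-- Murre's (D) for all varieties and all Chow-Kunneth decompositions. -/
def DAll : Prop := ∀ (X : 𝒱.Obj) (π : ℕ → C.A (X.prod X)), IsCK H X π → ∀ i : ℕ, DFor H π i

/-- For every variety which has a Chow-Kunneth decomposition, homologically trivial
correspondences of degree zero are strictly triangular for at least one decomposition. -/
def StrictSome : Prop := ∀ X : 𝒱.Obj, HasDec H X →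
  ∃ π : ℕ → C.A (X.prod X), IsCK H X π ∧ Strict H π

/-- For all decompositions of `X` and `Y`, a homologically trivial correspondence `Γ` of degree `e`
from `X` to `Y` has no component from `(X, π b)` to `(Y, π' a)` if `a ≥ b + 2e`. -/
def StrictAll : Prop := ∀ (X Y : 𝒱.Obj) (π : ℕ → C.A (X.prod X)) (π' : ℕ → C.A (Y.prod Y)),
  IsCK H X π → IsCK H Y π' → ∀ (e : ℤ) (Γ : C.A (X.prod Y)), C.Deg (X.dim + e) Γ →
    H.cl Γ = 0 → ∀ a b : ℕ, (b : ℤ) + 2 * e ≤ a → C.comp (C.comp (π b) Γ) (π' a) = 0

end Pool.Agent.W550.Murre
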