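import Pool.Agent.W550.Murre.Rings

/-!
# Strict triangularity of the elements with image zero
-/

namespace Pool.Agent.W550.Murre

variable {R S : Type*} [Ring R] [Ring S]

/-- The elements with image zero are strictly triangular with respect to the system. -/
def STri (φ : R →+* S) (p : ℕ → R) : Prop :=
  ∀ x : R, φ x = 0 → ∀ b a : ℕ, b ≤ a → p b * x * p a = 0

variable {φ : R →+* S} {n : ℕ} {h : ℕ → S} {p q : ℕ → R}

lemma IsSys.hh (hp : IsSys φ n h p) {i j : ℕ} (hij : i ≠ j) : h i * h j = 0 := by
  rw [← hp.map, ← hp.map, ← map_mul, hp.orth hij, map_zero]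

lemma STri.tri (hp : IsSys φ n h p) (hφ : ∀ (x : R) (b a : ℕ), b ≠ a → h b * φ x * h a = 0)
    (ht : STri φ p) : Tri p := by
  intro x b a hba
  have h1 : φ (p b * x * p a) = 0 := by
    rw [map_mul, map_mul, hp.map, hp.map, hφ x b a (by omega)]
  have h2 := ht _ h1 b a hba.le
  calc p b * x * p a = (p b * p b) * x * (p a * p a) := by rw [hp.idem, hp.idem]
    _ = p b * (p b * x * p a) * p a := by simp only [mul_assoc]
    _ = 0 := h2

lemma STri.noPh (hp : IsSys φ n h p) (ht : STri φ p) : NoPh φ := by
  intro e he hφe
  have key : ∀ (k a : ℕ), n ≤ a + k → e * p a = 0 := by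
    intro k
    induction k with
    | zero =>
      intro a ha
      rw [hp.zero a (by omega), mul_zero]
    | succ k ih =>
      intro a ha
      calc e * p a = e * (∑ c ∈ Finset.range n, p c) * e * p a := by
            rw [hp.sum, mul_one, he]
        _ = ∑ c ∈ Finset.range n, e * p c * e * p a := by
          rw [Finset.mul_sum, Finset.sum_mul, Finset.sum_mul]
        _ = 0 := by
          refine Finset.sum_eq_zero fun c _ => ?_
          rcases le_or_gt c a with h1 | h1
          · calc e * p c * e * p a = e * (p c * e * p a) := by simp only [mul_assoc]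
              _ = 0 := by rw [ht e hφe c a h1, mul_zero]
          · rw [ih c (by omega), zero_mul, zero_mul]
  calc e = e * ∑ j ∈ Finset.range n, p j := by rw [hp.sum, mul_one]
    _ = 0 := by
      rw [Finset.mul_sum]
      exact Finset.sum_eq_zero fun j _ => key n j (by omega)

/-- Strict triangularity does not depend on the system. -/
theorem STri.of_sys (hp : IsSys φ n h p)
    (hφ : ∀ (x : R) (b a : ℕ), b ≠ a → h b * φ x * h a = 0) (ht : STri φ p)
    (hq : IsSys φ n h q) : STri φ q := by
  have hc := compat_of_tri hp (ht.tri hp hφ) (ht.noPh hp) hq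
  intro x hx b a hba
  calc q b * x * q a = q b * (∑ c ∈ Finset.range n, p c) * x *
        (∑ d ∈ Finset.range n, p d) * q a := by rw [hp.sum, mul_one, mul_one]
    _ = ∑ c ∈ Finset.range n, ∑ d ∈ Finset.range n, q b * p c * x * p d * q a := by
      rw [Finset.sum_comm]
      simp only [Finset.mul_sum, Finset.sum_mul]
    _ = 0 := by
      refine Finset.sum_eq_zero fun c _ => Finset.sum_eq_zero fun d _ => ?_
      rcases lt_or_ge b c with h1 | h1
      · rw [hc.1 b c h1, zero_mul, zero_mul, zero_mul]
      · rcases lt_or_ge d a with h2 | h2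
        · calc q b * p c * x * p d * q a = q b * p c * x * (p d * q a) := by
                simp only [mul_assoc]
            _ = 0 := by rw [hc.2 d a h2, mul_zero]
        · calc q b * p c * x * p d * q a = q b * (p c * x * p d) * q a := by
                simp only [mul_assoc]
            _ = 0 := by rw [ht x hx c d (by omega), mul_zero, zero_mul]

/-- Strict triangularity of the corrected system. -/
theorem stri_qs {P : ℕ → R} (hsum : ps P n = 1) (htri : ∀ i j, i < j → P i * P j = 0) {x : R}
    (hx : ∀ i j : ℕ, i ≤ j → P i * x * P j = 0) (b a : ℕ) (hba : b ≤ a) :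
    qs P n b * x * qs P n a = 0 := by
  rw [qs, qs]
  by_cases ha : a < n
  · rw [if_pos ha, if_pos (by omega : b < n)]
    have h1 : ps P (b + 1) * x * (1 - ps P b) = 0 := by
      have h2 : 1 - ps P b = ∑ j ∈ Finset.Ico b n, P j := by
        rw [← hsum, sub_eq_iff_eq_add', ps, ps, Finset.range_eq_Ico, Finset.range_eq_Ico,
          Finset.sum_Ico_consecutive _ (Nat.zero_le _) (by omega)]
      rw [h2, ps, Finset.sum_mul, Finset.sum_mul_sum]
      refine Finset.sum_eq_zero fun i hi => Finset.sum_eq_zero fun j hj => hx i j ?_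
      rw [Finset.mem_range] at hi
      rw [Finset.mem_Ico] at hj
      omega
    rw [mul_sub, mul_one, sub_eq_zero] at h1
    -- `t = tru (n - (b + 1))` satisfies `t = t * ps (b + 1)`
    have h2 : tru P n (n - (b + 1)) * ps P (b + 1) = tru P n (n - (b + 1)) := by
      rcases Nat.eq_or_lt_of_le (by omega : b + 1 ≤ n) with h3 | h3
      · rw [h3, Nat.sub_self, tru, hsum, mul_one]
      · obtain ⟨k, hk⟩ : ∃ k, n - (b + 1) = k + 1 := ⟨n - (b + 1) - 1, by omega⟩
        rw [hk, tru, show n - (k + 1) = b + 1 by omega, mul_assoc,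
          ps_mul hsum htri le_rfl (by omega)]
    have h4 : (tru P n (n - (b + 1)) - tru P n (n - b)) * tru P n (n - (b + 1)) =
        tru P n (n - (b + 1)) - tru P n (n - b) := by
      rw [sub_mul, tru_min hsum htri (by omega) (by omega), tru_min hsum htri (by omega)
        (by omega), max_self, max_eq_left (by omega)]
    have h5 : ps P b * (tru P n (n - (a + 1)) - tru P n (n - a)) = 0 := by
      rw [mul_sub, ps_mul_tru hsum htri _ (by omega) _ (by omega),
        ps_mul_tru hsum htri _ (by omega) _ (by omega), sub_self]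
    calc (tru P n (n - (b + 1)) - tru P n (n - b)) * x *
        (tru P n (n - (a + 1)) - tru P n (n - a)) =
        (tru P n (n - (b + 1)) - tru P n (n - b)) * (tru P n (n - (b + 1)) * ps P (b + 1)) * x *
          (tru P n (n - (a + 1)) - tru P n (n - a)) := by rw [h2, h4]
      _ = (tru P n (n - (b + 1)) - tru P n (n - b)) * tru P n (n - (b + 1)) *
          (ps P (b + 1) * x) * (tru P n (n - (a + 1)) - tru P n (n - a)) := by
          simp only [mul_assoc]
      _ = (tru P n (n - (b + 1)) - tru P n (n - b)) * tru P n (n - (b + 1)) *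
          (ps P (b + 1) * x) * (ps P b * (tru P n (n - (a + 1)) - tru P n (n - a))) := by
          conv_lhs => rw [h1]
          simp only [mul_assoc]
      _ = 0 := by rw [h5, mul_zero]
  · rw [if_neg ha, mul_zero]

end Pool.Agent.W550.Murre
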