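import Pool.Agent.W550.Murre.DDefs
import Pool.Agent.W550.Murre.Local
import Pool.Agent.W550.Murre.RingsStrict

/-!
# Murre's conjecture (D)
-/

open CategoryTheory AlgebraicGeometry

universe u v w

namespace Pool.Agent.W550.Murre

open Pool.Agent.H914 Pool.Agent.H914.VarClass Pool.Agent.H914.VarClass.Obj Pool.Agent.W492.BB
  Pool.Agent.W550.Corr

variable {k : Type u} [Field k] {𝒱 : VarClass k} {C : TheoryData.{u, v, 0} 𝒱 ℚ} {K : Type w}
  [Field K] {H : WeilTheoryData.{u, v, w} C K} [hC : IsChow C] [hH : IsWeil H]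
  {X Y Z : 𝒱.Obj}

section

variable [hI : HasIso C]

attribute [local instance] instE instH

lemma strict_iff {π : ℕ → C.A (X.prod X)} (hπ : IsCK H X π) :
    Strict H π ↔ STri (phi H X) (toE0 hπ) := by
  constructor
  · intro h x hx b a hba
    apply cr_ext
    exact h (cr x) (cr_mem x) hx a b hba
  · intro h ν hν hν0 a b hba
    exact congrArg cr (h (mkE ν hν) hν0 b a hba)

lemma phi_between {π₀ : ℕ → C.A (X.prod X)} (hπ₀ : IsCK H X π₀) (x : E0 C X) (b a : ℕ)
    (hba : b ≠ a) : phi H X (toE0 hπ₀ b) * phi H X x * phi H X (toE0 hπ₀ a) = 0 := by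
  rw [← map_mul, ← map_mul]
  exact cl_between hπ₀ hπ₀ (cr_mem x) hba

/-- Strict triangularity does not depend on the decomposition. -/
lemma Strict.of_ck {π π' : ℕ → C.A (X.prod X)} (hπ : IsCK H X π) (hπ' : IsCK H X π')
    (h : Strict H π) : Strict H π' := by
  rw [strict_iff hπ']
  exact STri.of_sys (hπ.isSys hπ) (fun x b a hba => phi_between hπ x b a hba)
    ((strict_iff hπ).1 h) (hπ.isSys hπ')

lemma Strict.triangular {π : ℕ → C.A (X.prod X)} (hπ : IsCK H X π) (h : Strict H π) :
    Triangular π := by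
  rw [triangular_iff hπ]
  exact STri.tri (hπ.isSys hπ) (fun x b a hba => phi_between hπ x b a hba)
    ((strict_iff hπ).1 h)

lemma Strict.noPhantom {π : ℕ → C.A (X.prod X)} (hπ : IsCK H X π) (h : Strict H π) :
    NoPhantom H X :=
  noPhantom_iff.2 (STri.noPh (hπ.isSys hπ) ((strict_iff hπ).1 h))

/-- Strict triangularity implies that `π j` kills `CH^i_hom` for `j ≥ 2i`. -/
lemma Strict.kills [hS : IsStandard H] {π : ℕ → C.A (X.prod X)} (hπ : IsCK H X π)
    (h : Strict H π) {i j : ℕ} (hij : 2 * i ≤ j) {x : C.A X} (hx : x ∈ C.gr X i)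
    (hx0 : H.cl x = 0) : C.act (π j) x = 0 := by
  rcases lt_or_ge X.dim i with hd | hd
  · rw [hS.gr_top X i x (by exact_mod_cast hd) hx, C.act_map_zero]
  obtain ⟨η, hη, q, hq⟩ := hS.polarized X
  have hpow : ∀ n : ℕ, η ^ n ∈ C.gr X n := by
    intro n
    induction n with
    | zero => rw [pow_zero]; exact_mod_cast C.one_mem X
    | succ n ih =>
      rw [pow_succ]
      have := C.mul_mem ih hη
      exact_mod_cast this
  set α : C.A X := η ^ i with hα
  set β : C.A X := q • η ^ (X.dim - i) with hβ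
  have hβm : β ∈ C.gr X ((X.dim : ℤ) - i) := by
    have := Submodule.smul_mem _ q (hpow (X.dim - i))
    rwa [Nat.cast_sub hd] at this
  have hβα : β * α = q • η ^ X.dim := by
    rw [hβ, hα, smul_mul_assoc, ← pow_add, Nat.sub_add_cancel hd]
  set α' : C.A X := C.act (π (2 * i)) α with hα'
  have hα'm : α' ∈ C.gr X i := by
    have := Pool.Agent.W492.BB.act_mem (e := 0) (by rw [add_zero]; exact hπ.deg (2 * i)) (hpow i)
    rwa [add_zero] at this
  have hα'c : H.cl α' = H.cl α := by
    rw [hα', cl_act, hπ.coh (2 * i) (2 * i) _ (H.cl_mem (hpow i)), if_pos (by push_cast; ring)]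
  have hone : C.push (snd X X) (C.pull (fst X X) (β * α')) = 1 := by
    rw [← sub_eq_zero]
    apply hS.cl_inj X
    · refine Submodule.sub_mem _ ?_ (C.one_mem X)
      have := C.push_mem (snd X X) (C.pull_mem (fst X X) (C.mul_mem hβm hα'm))
      rwa [show (X.dim : ℤ) - i + i + 1 * ((X.dim : ℤ) - ((X.prod X).dim : ℤ)) = 0 by
        simp only [dim_prod]; push_cast; ring] at this
    · rw [map_sub, H.cl_push, H.cl_pull, map_mul, hα'c, ← map_mul, ← H.cl_pull, ← H.cl_push,
        hβα, ← map_sub]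
      have : C.push (snd X X) (C.pull (fst X X) (q • η ^ X.dim)) = 1 := hq.2.2 X
      rw [this, sub_self, map_zero]
  have hNm : C.ext β x ∈ C.gr (X.prod X) X.dim := by
    have := ext_mem hβm hx
    rwa [sub_add_cancel] at this
  have hN0 : H.cl (C.ext β x) = 0 := by
    rw [cl_ext, hx0, H.ext_zero_right]
  have hact : C.act (C.ext β x) α' = x := by
    rw [C.act_apply, TheoryData.ext, chow_mul_comm (C.pull (fst X X) β), mul_assoc, ← map_mul,
      C.proj_left, hone, mul_one]
  have h1 := congrArg (fun Γ => C.act Γ α) (h (C.ext β x) hNm hN0 j (2 * i) hij)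
  beta_reduce at h1
  rw [C.act_comp, C.act_comp, ← hα', hact, C.act_zero] at h1
  exact h1

lemma Strict.fzero [hS : IsStandard H] {π : ℕ → C.A (X.prod X)} (hπ : IsCK H X π)
    (h : Strict H π) : FZero π := by
  intro i
  rw [ckF_zero_iff hπ]
  intro j hj x hx
  have h1 : C.act (π j) x ∈ C.gr X i := by
    have := Pool.Agent.W492.BB.act_mem (e := 0) (by rw [add_zero]; exact hπ.deg j) hx
    rwa [add_zero] at this
  have h2 : H.cl (C.act (π j) x) = 0 := by
    rw [cl_act, hπ.coh j (2 * i) _ (H.cl_mem hx), if_neg (by omega)]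
  rw [← hπ.act_idem, h.kills hπ (by omega) h1 h2]

lemma Strict.dFor [hS : IsStandard H] {π : ℕ → C.A (X.prod X)} (hπ : IsCK H X π)
    (h : Strict H π) (i : ℕ) : DFor H π i := by
  intro x hx
  rw [hπ.mem_ckF]
  constructor
  · rintro ⟨-, h1⟩
    have h2 := h1 (2 * i) (by push_cast; omega)
    have h3 := cl_act H (π (2 * i)) x
    rw [h2, map_zero, hπ.coh (2 * i) (2 * i) _ (H.cl_mem hx), if_pos (by push_cast; ring)] at h3
    exact h3.symm
  · intro hx0
    exact ⟨hx, fun j hj => h.kills hπ (by omega) hx hx0⟩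

/-- Everything follows from strict triangularity for one decomposition. -/
theorem good_of_strict [hS : IsStandard H] {π : ℕ → C.A (X.prod X)} (hπ : IsCK H X π)
    (h : Strict H π) : Good H X where
  hasDec := ⟨π, hπ⟩
  d π' hπ' i := (h.of_ck hπ hπ').dFor hπ' i
  fzero π' hπ' := (h.of_ck hπ hπ').fzero hπ'
  strict π' hπ' := h.of_ck hπ hπ'
  indep := by
    have h1 : TruncInd H X := by
      refine ((truncInd_tfae ⟨π, hπ⟩).out 2 0).1 ?_
      exact ⟨⟨π, hπ, h.triangular hπ⟩, h.noPhantom hπ⟩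
    exact independent_of_orth h1

/-- The extraction of a component from the product decomposition. -/
lemma comp_of_prodCK {π : ℕ → C.A (X.prod X)} {π' : ℕ → C.A (Y.prod Y)} (hπ : IsCK H X π)
    (hπ' : IsCK H Y π') {Γ : C.A (X.prod Y)} {a b : ℕ} (hb : b ≤ 2 * X.dim) (ha : a ≤ 2 * Y.dim)
    (h1 : C.act (prodCK (dualCK π) π' (2 * X.dim - b + a)) Γ = 0) :
    C.comp (C.comp (π b) Γ) (π' a) = 0 := by
  set l : ℕ := 2 * X.dim - b + a with hl
  have h2 : C.act (prodCK (dualCK π) π' l) Γ =
      ∑ s ∈ Finset.range (2 * X.dim + 1), ∑ t ∈ Finset.range (2 * Y.dim + 1),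
        if s + t = l then C.comp (C.comp (π (2 * X.dim - s)) Γ) (π' t) else 0 := by
    rw [prodCK, act_sum]
    refine Finset.sum_congr rfl fun s hs => ?_
    rw [act_sum]
    refine Finset.sum_congr rfl fun t ht => ?_
    split_ifs
    · rw [act_tens, dualCK, if_pos (by rw [Finset.mem_range] at hs; omega), tp_tp]
    · exact C.act_zero _
  rw [h2] at h1
  have h3 := congrArg (fun z => C.comp (C.comp (π b) z) (π' a)) h1
  beta_reduce at h3
  rw [comp_zero, zero_comp, comp_sum, sum_comp, Finset.sum_eq_single (2 * X.dim - b), comp_sum,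
    sum_comp, Finset.sum_eq_single a, if_pos (by omega)] at h3
  · rw [show 2 * X.dim - (2 * X.dim - b) = b by omega, ← comp_assoc, ← comp_assoc, hπ.idem,
      comp_assoc C (C.comp (π b) Γ), hπ'.idem] at h3
    exact h3
  · intro t _ ht
    split_ifs
    · rw [← comp_assoc, comp_assoc C _ (π' t), hπ'.orth t a ht, comp_zero]
    · rw [comp_zero, zero_comp]
  · intro h
    exact absurd (Finset.mem_range.2 (by omega)) h
  · intro s hs hsb
    rw [Finset.mem_range] at hs
    rw [comp_sum, sum_comp]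
    refine Finset.sum_eq_zero fun t _ => ?_
    split_ifs
    · rw [← comp_assoc, ← comp_assoc, hπ.orth b (2 * X.dim - s) (by omega), zero_comp, zero_comp,
        zero_comp]
    · rw [comp_zero, zero_comp]
  · intro h
    exact absurd (Finset.mem_range.2 (by omega)) h

lemma squareDec_eq (π : ℕ → C.A (X.prod X)) : squareDec π = prodCK (dualCK π) π := by
  funext l
  rw [squareDec, prodCK]
  refine Finset.sum_congr rfl fun s hs => Finset.sum_congr rfl fun t _ => ?_
  have h1 : dualCK π s = tp C (π (2 * X.dim - s)) := by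
    rw [dualCK, if_pos (by rw [Finset.mem_range] at hs; omega)]
  rw [h1]
  rfl

/-- (D) for the product decomposition of `X × X` implies strict triangularity. -/
theorem strict_of_square [hS : IsStandard H] {π : ℕ → C.A (X.prod X)} (hπ : IsCK H X π)
    (hD : DSquare H π) : Strict H π := by
  intro ν hν hν0 a b hba
  rcases lt_or_ge (2 * X.dim) a with ha | ha
  · rw [hπ.vanish a ha, comp_zero]
  have h1 := hD ν hν hν0
  rw [squareDec_eq, (hπ.dual.prod hπ).mem_ckF] at h1
  exact comp_of_prodCK hπ hπ (by omega) ha (h1.2 _ (by omega))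

/-- (D) for `X × Y` implies strict triangularity of correspondences from `X` to `Y`. -/
theorem strict_of_prod [hS : IsStandard H]
    (hD : ∀ ρ : ℕ → C.A ((X.prod Y).prod (X.prod Y)), IsCK H (X.prod Y) ρ → ∀ i : ℕ,
      DFor H ρ i)
    {π : ℕ → C.A (X.prod X)} {π' : ℕ → C.A (Y.prod Y)} (hπ : IsCK H X π) (hπ' : IsCK H Y π')
    {e : ℤ} {Γ : C.A (X.prod Y)} (hΓ : Γ ∈ C.gr (X.prod Y) (X.dim + e)) (hΓ0 : H.cl Γ = 0)
    {a b : ℕ} (hab : (b : ℤ) + 2 * e ≤ a) : C.comp (C.comp (π b) Γ) (π' a) = 0 := by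
  rcases lt_or_ge (2 * X.dim) b with hb | hb
  · rw [hπ.vanish b hb, zero_comp, zero_comp]
  rcases lt_or_ge (2 * Y.dim) a with ha | ha
  · rw [hπ'.vanish a ha, comp_zero]
  rcases lt_or_ge ((X.dim : ℤ) + e) 0 with he | he
  · rw [C.gr_neg _ _ he] at hΓ
    rw [(Submodule.mem_bot _).1 hΓ, comp_zero, zero_comp]
  obtain ⟨i, hi⟩ := Int.eq_ofNat_of_zero_le he
  rw [hi] at hΓ
  have hρ := hπ.dual.prod hπ'
  have h1 := (hD _ hρ i Γ hΓ).2 hΓ0
  rw [hρ.mem_ckF] at h1
  exact comp_of_prodCK hπ hπ' hb ha (h1.2 _ (by omega))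

/-- Strict triangularity passes to retracts, and so does the existence of a decomposition. -/
theorem Strict.retract [hS : IsStandard H] {π : ℕ → C.A (Y.prod Y)} (hπ : IsCK H Y π)
    (h : Strict H π) (hXY : IsRetract C X Y) :
    ∃ ρ : ℕ → C.A (X.prod X), IsCK H X ρ ∧ Strict H ρ := by
  have hXph : NoPhantom H X := (h.noPhantom hπ).retract hXY
  have htri : Triangular π := h.triangular hπ
  obtain ⟨a, b, ha, hb, hab⟩ := hXY
  have ha0 : a ∈ C.gr (X.prod Y) (X.dim + 0) := by rw [add_zero]; exact ha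
  have hb0 : b ∈ C.gr (Y.prod X) (Y.dim + 0) := by rw [add_zero]; exact hb
  have hpdeg : ∀ j, C.Deg X.dim (C.comp (C.comp a (π j)) b) := by
    intro j
    have h1 : π j ∈ C.gr (Y.prod Y) (Y.dim + 0) := by rw [add_zero]; exact hπ.deg j
    have h2 := deg_comp (deg_comp ha0 h1) hb0
    rw [add_zero, add_zero, add_zero] at h2
    exact h2
  let p : ℕ → E0 C X := fun j => mkE (C.comp (C.comp a (π j)) b) (hpdeg j)
  have hmid : ∀ (x : E0 C X) (i j : ℕ), cr (p i * x * p j) =
      C.comp (C.comp a (C.comp (C.comp (π i) (C.comp (C.comp b (cr x)) a)) (π j))) b := by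
    intro x i j
    have h1 : cr (p i * x * p j) = C.comp (C.comp (C.comp (C.comp a (π i)) b) (cr x))
        (C.comp (C.comp a (π j)) b) := rfl
    rw [h1]
    simp only [comp_assoc]
  have hdeg : ∀ x : E0 C X, C.Deg Y.dim (C.comp (C.comp b (cr x)) a) := by
    intro x
    have hx0 : cr x ∈ C.gr (X.prod X) (X.dim + 0) := by rw [add_zero]; exact cr_mem x
    have h2 := deg_comp (deg_comp hb0 hx0) ha0
    rw [add_zero, add_zero, add_zero] at h2
    exact h2
  have hptri : ∀ (x : E0 C X) (i j : ℕ), i < j → p i * x * p j = 0 := by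
    intro x i j hij
    apply cr_ext
    rw [hmid, htri _ (hdeg x) j i hij, comp_zero, zero_comp, cr_zero]
  have hpstri : ∀ (x : E0 C X), phi H X x = 0 → ∀ i j : ℕ, i ≤ j → p i * x * p j = 0 := by
    intro x hx i j hij
    apply cr_ext
    have h1 : H.cl (C.comp (C.comp b (cr x)) a) = 0 := by
      rw [cl_comp, cl_comp, (phi_eq_zero_iff x).1 hx, comp_zero, zero_comp]
    rw [hmid, h _ (hdeg x) h1 j i hij, comp_zero, zero_comp, cr_zero]
  have hptri' : ∀ i j, i < j → p i * p j = 0 := by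
    intro i j hij
    have := hptri 1 i j hij
    rwa [mul_one] at this
  have hsum : ps p (2 * Y.dim + 1) = 1 := by
    apply cr_ext
    rw [ps, cr_sum]
    change ∑ j ∈ Finset.range (2 * Y.dim + 1), C.comp (C.comp a (π j)) b = dg C X
    rw [← sum_comp, ← comp_sum, hπ.sum, comp_dg, hab]
  have hpcoh : ∀ (j : ℕ) (l : ℤ) (c : H.A X), c ∈ H.gr X l →
      H.act (H.cl (cr (p j))) c = if l = j then c else 0 := by
    intro j l c hc
    change H.act (H.cl (C.comp (C.comp a (π j)) b)) c = _
    have h1 := actH_mem H ha0 hc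
    rw [mul_zero, add_zero] at h1
    have h2 : H.act (H.cl b) (H.act (H.cl a) c) = c := by
      rw [← H.act_comp, ← cl_comp, hab, cl_dg, act_dg]
    rw [cl_comp, cl_comp, H.act_comp, H.act_comp, hπ.coh j l _ h1]
    split_ifs
    · exact h2
    · exact H.act_map_zero _
  have hφ : ∀ i j, i ≠ j → phi H X (p i) * phi H X (p j) = 0 := by
    intro i j hij
    rw [← map_mul]
    change H.cl (C.comp (cr (p i)) (cr (p j))) = 0
    refine cl_eq_zero fun l c hc => ?_
    rw [cl_comp, H.act_comp, hpcoh i l c hc]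
    split_ifs with h1
    · rw [hpcoh j l c hc, if_neg (by omega)]
    · exact H.act_map_zero _
  have hpz : ∀ j, 2 * Y.dim + 1 ≤ j → p j = 0 := by
    intro j hj
    apply cr_ext
    change C.comp (C.comp a (π j)) b = 0
    rw [hπ.vanish j (by omega), comp_zero, zero_comp]
  have hq : IsSys (phi H X) (2 * Y.dim + 1) (fun j => phi H X (p j)) (qs p (2 * Y.dim + 1)) :=
    isSys_qs hsum hptri' (fun _ _ => rfl) (fun j hj => by
      change phi H X (p j) = 0
      rw [hpz j hj, map_zero]) hφ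
  set q : ℕ → E0 C X := qs p (2 * Y.dim + 1) with hqdef
  have hqz : ∀ j, 2 * X.dim < j → q j = 0 := by
    intro j hj
    refine noPhantom_iff.1 hXph _ (hq.idem j) ?_
    rw [hq.map]
    change H.cl (cr (p j)) = 0
    refine cl_eq_zero fun l c hc => ?_
    rw [hpcoh j l c hc]
    split_ifs with h
    · exact grH_top hc (by omega)
    · rfl
  have hck : IsCK H X (fun j => cr (q j)) := by
    refine ⟨fun j => cr_mem (q j), fun j => ?_, fun i j hij => ?_, ?_, fun j hj => ?_,
      fun j l c hc => ?_⟩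
    · rw [← cr_mul, hq.idem]
    · rw [← cr_mul, hq.orth hij, cr_zero]
    · have h1 : ∑ j ∈ Finset.range (2 * X.dim + 1), q j = 1 := by
        rw [← hq.sum]
        rcases le_total (2 * X.dim + 1) (2 * Y.dim + 1) with h2 | h2
        · refine Finset.sum_subset (Finset.range_mono h2) fun j _ hj => hqz j ?_
          rw [Finset.mem_range] at hj
          omega
        · refine (Finset.sum_subset (Finset.range_mono h2) fun j _ hj => hq.zero j ?_).symm
          rw [Finset.mem_range] at hj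
          omega
      rw [← cr_sum, h1, cr_one]
    · rw [hqz j hj, cr_zero]
    · have h1 : H.cl (cr (q j)) = H.cl (cr (p j)) := hq.map j
      rw [h1]
      exact hpcoh j l c hc
  refine ⟨_, hck, fun ν hν hν0 i j hij => ?_⟩
  have h1 : ∀ s t : ℕ, s ≤ t → p s * mkE ν hν * p t = 0 :=
    hpstri (mkE ν hν) ((phi_eq_zero_iff _).2 hν0)
  exact congrArg cr (stri_qs (n := 2 * Y.dim + 1) hsum hptri' h1 j i hij)

end

theorem d_tfae (hS : IsStandard H) : [DAll H, StrictSome H, StrictAll H].TFAE := by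
  have hI : HasIso C := hasIso_of_std H hS
  tfae_have 1 → 3 := fun h X Y π π' hπ hπ' e Γ hΓ hΓ0 a b hab =>
    strict_of_prod (fun ρ hρ i => h _ ρ hρ i) hπ hπ' hΓ hΓ0 hab
  tfae_have 3 → 2 := by
    rintro h X ⟨π, hπ⟩
    refine ⟨π, hπ, fun ν hν hν0 a b hba => ?_⟩
    exact h X X π π hπ hπ 0 ν (by rw [add_zero]; exact hν) hν0 a b (by omega)
  tfae_have 2 → 1 := by
    intro h X π hπ i
    obtain ⟨ρ, hρ, hst⟩ := h X ⟨π, hπ⟩
    exact (good_of_strict hρ hst).d π hπ i
  tfae_finish

end Pool.Agent.W550.Murre
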