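import Pool.Agent.W550.Corr.Tens

/-!
# Chow-Kunneth decompositions and the filtrations which they induce: definitions
-/

open CategoryTheory AlgebraicGeometry

universe u v w

namespace Pool.Agent.W550.Murre

open Pool.Agent.H914 Pool.Agent.H914.VarClass Pool.Agent.H914.VarClass.Obj Pool.Agent.W492.BB
  Pool.Agent.W550.Corr

variable {k : Type u} [Field k] {𝒱 : VarClass k}

/-- The zero-cycle class `a` on `X` has degree one: for every `Z` the push-forwards of `Z × a` and
`a × Z` to `Z` are the fundamental class of `Z`. -/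
def IsDegOne (C : TheoryData.{u, v, 0} 𝒱 ℚ) (X : 𝒱.Obj) (a : C.A X) : Prop :=
  C.Deg X.dim a ∧ (∀ Z : 𝒱.Obj, C.down (fst Z X) (C.up (snd Z X) a) = 1) ∧
    (∀ Z : 𝒱.Obj, C.down (snd X Z) (C.up (fst X Z) a) = 1)

variable {C : TheoryData.{u, v, 0} 𝒱 ℚ} {K : Type w} [Field K] (H : WeilTheoryData.{u, v, w} C K)

/-- Some further standard properties of the Chow groups `C` and of the Weil cohomology theory `H`
of smooth projective connected varieties: `push_one`: the push-forward along an isomorphism maps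
the fundamental class to the fundamental class; `gr_top`: `CH^i(X) = 0` for `i > dim X`; `cl_inj`:
the cycle class map is injective on `CH^0(X)` (which is spanned by the fundamental class);
`tr_eq_zero`: the orientation of `X` vanishes outside the top degree `2 dim X`; `polarized`: some
divisor class `h` on `X` has a top self-intersection of nonzero degree (for example the class of
a hyperplane section). -/
class IsStandard (H : WeilTheoryData.{u, v, w} C K) : Prop where
  push_one : ∀ {X Y : 𝒱.Obj} (f : X ⟶ Y) (g : Y ⟶ X), f ≫ g = 𝟙 X → g ≫ f = 𝟙 Y →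
    C.down f 1 = 1
  gr_top : ∀ (X : 𝒱.Obj) (i : ℤ) (x : C.A X), X.dim < i → C.Deg i x → x = 0
  cl_inj : ∀ (X : 𝒱.Obj) (x : C.A X), C.Deg 0 x → H.cl x = 0 → x = 0
  tr_eq_zero : ∀ (X : 𝒱.Obj) (m : ℤ) (a : H.A X), m ≠ 2 * X.dim → H.Deg m a → H.tr X a = 0
  polarized : ∀ X : 𝒱.Obj, ∃ h : C.A X, C.Deg 1 h ∧ ∃ q : ℚ, IsDegOne C X (q • h ^ X.dim)

/-- `π 0, ..., π (2d)` is a Chow-Kunneth decomposition of `X`, `d = dim X` (and `π j = 0` for
`j > 2d`): orthogonal idempotents in `CH^d(X × X)` with respect to the composition of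
correspondences, with sum the diagonal, such that `π j` acts as the identity on `H^j(X)` and as
zero on `H^l(X)`, `l ≠ j`. -/
structure IsCK (X : 𝒱.Obj) (π : ℕ → C.A (X.prod X)) : Prop where
  deg : ∀ j, C.Deg X.dim (π j)
  idem : ∀ j, C.comp (π j) (π j) = π j
  orth : ∀ i j, i ≠ j → C.comp (π i) (π j) = 0
  sum : ∑ j ∈ Finset.range (2 * X.dim + 1), π j = dg C X
  vanish : ∀ j, 2 * X.dim < j → π j = 0
  coh : ∀ (j : ℕ) (l : ℤ) (a : H.A X), H.Deg l a → H.act (H.cl (π j)) a = if l = j then a else 0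

/-- The sum of the `π j` with `j ≤ m`. -/
noncomputable def ckSum {X : 𝒱.Obj} (π : ℕ → C.A (X.prod X)) (m : ℤ) : C.A (X.prod X) :=
  ∑ j ∈ (Finset.range (2 * X.dim + 1)).filter (fun j : ℕ => (j : ℤ) ≤ m), π j

/-- The filtration induced by the decomposition:
`F^n CH^i(X) = (π^(2i-n) + ... + π^0)_* CH^i(X)`. -/
noncomputable def ckF {X : 𝒱.Obj} (π : ℕ → C.A (X.prod X)) (i : ℕ) (n : ℤ) :
    Submodule ℚ (C.A X) := (C.gr X i).map (C.actL (ckSum π (2 * i - n)))

/-- Murre's independence for the variety `X`: all Chow-Kunneth decompositions of `X` induce the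
same filtrations on the Chow groups of `X`. -/
def Independent (X : 𝒱.Obj) : Prop :=
  ∀ π π' : ℕ → C.A (X.prod X), IsCK H X π → IsCK H X π' → ∀ (i : ℕ) (n : ℤ),
    ckF π i n = ckF π' i n

/-- The variety `X` is a retract of the variety `Y`, via correspondences of degree zero. (For
example, `Y` dominates `X`.) -/
def IsRetract (C : TheoryData.{u, v, 0} 𝒱 ℚ) (X Y : 𝒱.Obj) : Prop :=
  ∃ (a : C.A (X.prod Y)) (b : C.A (Y.prod X)), C.Deg X.dim a ∧ C.Deg Y.dim b ∧
    C.comp a b = dg C X

end Pool.Agent.W550.Murre
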