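import Mathlib

/-!
# Orthogonal idempotents from a triangular system
-/

namespace Pool.Agent.W550.Murre

variable {R : Type*} [Ring R] (p : ℕ → R) (n : ℕ)

/-- The partial sums. -/
def ps (m : ℕ) : R := ∑ j ∈ Finset.range m, p j

/-- The corrected truncations: `tr k = s_n s_(n-1) ⋯ s_(n-k)`. -/
def tru : ℕ → R
  | 0 => 1
  | k + 1 => tru k * ps p (n - (k + 1))

variable {p n}

lemma ps_mul (hsum : ps p n = 1) (htri : ∀ i j, i < j → p i * p j = 0) {m m' : ℕ} (h : m ≤ m')
    (h' : m' ≤ n) : ps p m * ps p m' = ps p m := by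
  have h1 : ps p m' = 1 - ∑ j ∈ Finset.Ico m' n, p j := by
    rw [← hsum, eq_sub_iff_add_eq, ps, ps, Finset.range_eq_Ico, Finset.range_eq_Ico,
      Finset.sum_Ico_consecutive _ (Nat.zero_le _) h']
  rw [h1, mul_sub, mul_one, sub_eq_self, ps, Finset.sum_mul_sum]
  refine Finset.sum_eq_zero fun i hi => Finset.sum_eq_zero fun j hj => htri i j ?_
  rw [Finset.mem_range] at hi
  rw [Finset.mem_Ico] at hj
  omega

lemma ps_mul_tru (hsum : ps p n = 1) (htri : ∀ i j, i < j → p i * p j = 0) (k : ℕ) (hk : k ≤ n)
    (j : ℕ) (hj : j ≤ n - k) : ps p j * tru p n k = ps p j := by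
  induction k with
  | zero => rw [tru, mul_one]
  | succ k ih =>
    rw [tru, ← mul_assoc, ih (by omega) (by omega), ps_mul hsum htri hj (by omega)]

lemma tru_mul (hsum : ps p n = 1) (htri : ∀ i j, i < j → p i * p j = 0) {k k' : ℕ} (h : k ≤ k')
    (h' : k' ≤ n) : tru p n k' * tru p n k = tru p n k' := by
  cases k' with
  | zero =>
    obtain rfl : k = 0 := by omega
    rw [tru, one_mul]
  | succ l => rw [tru, mul_assoc, ps_mul_tru hsum htri k (by omega) _ (by omega)]

lemma tru_mul' (hsum : ps p n = 1) (htri : ∀ i j, i < j → p i * p j = 0) {k k' : ℕ} (h : k ≤ k')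
    (h' : k' ≤ n) : tru p n k * tru p n k' = tru p n k' := by
  induction h with
  | refl => exact tru_mul hsum htri le_rfl h'
  | step h1 ih => rw [tru, ← mul_assoc, ih (by omega)]

lemma tru_min (hsum : ps p n = 1) (htri : ∀ i j, i < j → p i * p j = 0) {k k' : ℕ} (h : k ≤ n)
    (h' : k' ≤ n) : tru p n k * tru p n k' = tru p n (max k k') := by
  rcases le_total k k' with h1 | h1
  · rw [max_eq_right h1, tru_mul' hsum htri h1 h']
  · rw [max_eq_left h1, tru_mul hsum htri h1 h]

variable (p n) in
/-- The orthogonal idempotents. -/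
def qs (j : ℕ) : R := if j < n then tru p n (n - (j + 1)) - tru p n (n - j) else 0

lemma qs_mul (hsum : ps p n = 1) (htri : ∀ i j, i < j → p i * p j = 0) (i j : ℕ) :
    qs p n i * qs p n j = if i = j then qs p n i else 0 := by
  rw [qs, qs]
  by_cases hi : i < n
  · by_cases hj : j < n
    · rw [if_pos hi, if_pos hj, sub_mul, mul_sub, mul_sub,
        tru_min hsum htri (by omega) (by omega), tru_min hsum htri (by omega) (by omega),
        tru_min hsum htri (by omega) (by omega), tru_min hsum htri (by omega) (by omega)]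
      split_ifs with hij
      · subst hij
        rw [max_self, max_self, max_eq_right (by omega), max_eq_left (by omega), sub_self,
          sub_zero]
      · rcases lt_or_gt_of_ne hij with h | h
        · rw [max_eq_left (by omega), max_eq_left (by omega), max_eq_left (by omega),
            max_eq_left (by omega), sub_self, sub_self, sub_self]
        · rw [max_eq_right (by omega), max_eq_right (by omega), max_eq_right (by omega),
            max_eq_right (by omega), sub_self]
    · rw [if_neg hj, mul_zero, if_neg (by omega)]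
  · rw [if_neg hi, zero_mul]
    split_ifs <;> rfl

lemma tru_self (hsum : ps p n = 1) : tru p n n = 0 := by
  cases n with
  | zero => rw [tru, ← hsum, ps, Finset.range_zero, Finset.sum_empty]
  | succ n => rw [tru, Nat.sub_self, ps, Finset.range_zero, Finset.sum_empty, mul_zero]

lemma sum_qs (hsum : ps p n = 1) : ∑ j ∈ Finset.range n, qs p n j = 1 := by
  have h1 : ∀ m ≤ n, ∑ j ∈ Finset.range m, qs p n j = tru p n (n - m) - tru p n n := by
    intro m hm
    induction m with
    | zero => rw [Finset.range_zero, Finset.sum_empty, Nat.sub_zero, sub_self]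
    | succ m ih =>
      rw [Finset.sum_range_succ, ih (by omega), qs, if_pos (by omega)]
      abel
  rw [h1 n le_rfl, Nat.sub_self, tru_self hsum, tru, sub_zero]

/-- A ring homomorphism under which the `p i` become orthogonal maps `q i` to the image of
`p i`. -/
lemma map_qs {S : Type*} [Ring S] (φ : R →+* S) (hsum : ps p n = 1)
    (hφ : ∀ i j, i ≠ j → φ (p i) * φ (p j) = 0) (j : ℕ) (hj : j < n) :
    φ (qs p n j) = φ (p j) := by
  have h1 : ∀ m m', m ≤ m' → m' ≤ n → φ (ps p m') * φ (ps p m) = φ (ps p m) := by
    intro m m' h h'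
    have h1 : ps p m' = 1 - ∑ j ∈ Finset.Ico m' n, p j := by
      rw [← hsum, eq_sub_iff_add_eq, ps, ps, Finset.range_eq_Ico, Finset.range_eq_Ico,
        Finset.sum_Ico_consecutive _ (Nat.zero_le _) h']
    rw [h1, map_sub, map_one, sub_mul, one_mul, sub_eq_self, ps, map_sum, map_sum,
      Finset.sum_mul_sum]
    refine Finset.sum_eq_zero fun i hi => Finset.sum_eq_zero fun j hj => hφ i j ?_
    rw [Finset.mem_range] at hj
    rw [Finset.mem_Ico] at hi
    omega
  have h2 : ∀ k ≤ n, φ (tru p n k) = φ (ps p (n - k)) := by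
    intro k hk
    induction k with
    | zero => rw [tru, Nat.sub_zero, hsum]
    | succ k ih => rw [tru, map_mul, ih (by omega), h1 _ _ (by omega) (by omega)]
  rw [qs, if_pos hj, map_sub, h2 _ (by omega), h2 _ (by omega),
    show n - (n - (j + 1)) = j + 1 by omega, show n - (n - j) = j by omega, ps, ps,
    Finset.sum_range_succ, map_add]
  abel

/-- Regrouping orthogonal idempotents. -/
lemma regroup_mul {q : ℕ → R} (hq : ∀ i j, q i * q j = if i = j then q i else 0) (g : ℕ → ℕ)
    (i j : ℕ) : (∑ a ∈ (Finset.range n).filter (fun a => g a = i), q a) *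
      (∑ a ∈ (Finset.range n).filter (fun a => g a = j), q a) =
      if i = j then ∑ a ∈ (Finset.range n).filter (fun a => g a = i), q a else 0 := by
  rw [Finset.sum_mul_sum]
  split_ifs with hij
  · subst hij
    refine Finset.sum_congr rfl fun a ha => ?_
    rw [Finset.sum_congr rfl fun b _ => hq a b, Finset.sum_ite_eq, if_pos ha]
  · refine Finset.sum_eq_zero fun a ha => Finset.sum_eq_zero fun b hb => ?_
    rw [Finset.mem_filter] at ha hb
    rw [hq, if_neg]
    rintro rfl
    exact hij (ha.2.symm.trans hb.2)

end Pool.Agent.W550.Murre
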